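import Mathlib

/-!
# Maximal regular sequences
-/

set_option autoImplicit false

namespace Pool.Agent.H72.LD

open IsLocalRing RingTheory.Sequence

theorem smul_reg_iff {R : Type} [CommRing R] (rs : List R) (y : R) :
    IsSMulRegular (R ⧸ (Ideal.ofList rs • ⊤ : Submodule R R)) y ↔
      ∀ z, y * z ∈ Ideal.ofList rs → z ∈ Ideal.ofList rs := by
  have e : (Ideal.ofList rs • ⊤ : Submodule R R) = Ideal.ofList rs := by simp
  rw [e, isSMulRegular_quotient_iff_mem_of_smul_mem]
  rfl

theorem snoc_iff {R : Type} [CommRing R] (rs : List R) (y : R) :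
    IsWeaklyRegular R (rs ++ [y]) ↔ IsWeaklyRegular R rs ∧
      ∀ z, y * z ∈ Ideal.ofList rs → z ∈ Ideal.ofList rs := by
  rw [isWeaklyRegular_append_iff, isWeaklyRegular_singleton_iff, smul_reg_iff]

theorem snoc_pow {R : Type} [CommRing R] (rs : List R) (y : R) (q : ℕ)
    (h : IsWeaklyRegular R (rs ++ [y])) : IsWeaklyRegular R (rs ++ [y ^ q]) := by
  rw [snoc_iff] at h ⊢
  refine ⟨h.1, ?_⟩
  induction q with
  | zero => intro z hz; simpa using hz
  | succ q ih =>
    intro z hz
    rw [pow_succ', mul_assoc] at hz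
    exact ih z (h.2 _ hz)

theorem pow_aux {R : Type} [CommRing R] [IsLocalRing R] [IsNoetherianRing R] (q : ℕ) (hq : q ≠ 0)
    (L : List R) : ∀ L' : List R, (∀ y ∈ L' ++ L, y ∈ maximalIdeal R) →
      IsWeaklyRegular R (L' ++ L) → IsWeaklyRegular R (L' ++ L.map (· ^ q)) := by
  induction L with
  | nil => intro L' _ h; simpa using h
  | cons x L ih =>
    intro L' hm h
    have p1 : (L' ++ x :: L).Perm ((L' ++ L) ++ [x]) := by
      refine (List.perm_append_left_iff L' |>.2 (List.perm_append_singleton x L).symm).trans ?_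
      rw [List.append_assoc]
    have h1 := isWeaklyRegular_of_perm_of_subset_maximalIdeal h p1 hm
    have h2 := snoc_pow _ _ q h1
    have p2 : ((L' ++ L) ++ [x ^ q]).Perm ((L' ++ [x ^ q]) ++ L) := by
      rw [List.append_assoc, List.append_assoc]
      refine (List.perm_append_left_iff L').2 ?_
      exact List.perm_append_comm
    have hm2 : ∀ r ∈ (L' ++ L) ++ [x ^ q], r ∈ maximalIdeal R := by
      intro r hr
      rcases List.mem_append.1 hr with hr | hr
      · exact hm r (by
          rcases List.mem_append.1 hr with hr | hr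
          · exact List.mem_append_left _ hr
          · exact List.mem_append_right _ (List.mem_cons_of_mem _ hr))
      · rw [List.mem_singleton.1 hr]
        exact Ideal.pow_mem_of_mem _ (hm x (by simp)) _ (Nat.pos_of_ne_zero hq)
    have h3 := isWeaklyRegular_of_perm_of_subset_maximalIdeal h2 p2 hm2
    have h4 := ih (L' ++ [x ^ q]) (fun r hr => hm2 r (by
      simp only [List.mem_append, List.mem_singleton] at hr ⊢
      tauto)) h3
    rw [List.append_assoc] at h4
    simpa using h4

theorem pow_reg {R : Type} [CommRing R] [IsLocalRing R] [IsNoetherianRing R] (q : ℕ) (hq : q ≠ 0)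
    (L : List R) (hm : ∀ y ∈ L, y ∈ maximalIdeal R) (h : IsWeaklyRegular R L) :
    IsWeaklyRegular R (L.map (· ^ q)) := by
  simpa using pow_aux q hq L [] (by simpa using hm) (by simpa using h)

theorem exists_max (R : Type) [CommRing R] [IsLocalRing R] [IsNoetherianRing R] :
    ∃ L : List R, (∀ y ∈ L, y ∈ maximalIdeal R) ∧ IsWeaklyRegular R L ∧
      ∃ s, s ∉ Ideal.ofList L ∧ ∀ x ∈ maximalIdeal R, x * s ∈ Ideal.ofList L := by
  classical
  set A : Set (Ideal R) := {J | ∃ L : List R, (∀ y ∈ L, y ∈ maximalIdeal R) ∧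
    IsWeaklyRegular R L ∧ J = Ideal.ofList L} with hA
  have hne : A.Nonempty := ⟨Ideal.ofList [], [], by simp, IsWeaklyRegular.nil R R, rfl⟩
  obtain ⟨J, ⟨L, hL, hreg, rfl⟩, hmax⟩ := set_has_maximal_iff_noetherian.2
    (inferInstance : IsNoetherian R R) A hne
  refine ⟨L, hL, hreg, ?_⟩
  have hle : Ideal.ofList L ≤ maximalIdeal R := Ideal.span_le.2 hL
  haveI : Nontrivial (R ⧸ Ideal.ofList L) :=
    Ideal.Quotient.nontrivial_iff.2 (fun h => (maximalIdeal.isMaximal R).ne_top (top_le_iff.1 (h ▸ hle)))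
  have hsub : (maximalIdeal R : Set R) ⊆ ⋃ p ∈ associatedPrimes R (R ⧸ Ideal.ofList L), p := by
    rw [biUnion_associatedPrimes_eq_compl_regular]
    intro y hy hyreg
    have h1 : IsWeaklyRegular R (L ++ [y]) := by
      rw [snoc_iff]
      refine ⟨hreg, ?_⟩
      have := (isSMulRegular_quotient_iff_mem_of_smul_mem (Ideal.ofList L) y).1 hyreg
      exact this
    have h2 : Ideal.ofList L < Ideal.ofList (L ++ [y]) := by
      rw [Ideal.ofList_append, Ideal.ofList_singleton]
      refine lt_of_le_of_ne le_sup_left ?_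
      intro he
      have hy2 : y ∈ Ideal.ofList L := by
        rw [he]
        exact Ideal.mem_sup_right (Ideal.mem_span_singleton_self y)
      have h3 := (isSMulRegular_quotient_iff_mem_of_smul_mem (Ideal.ofList L) y).1 hyreg 1 (by
        simpa using hy2)
      exact (maximalIdeal.isMaximal R).ne_top ((Ideal.eq_top_iff_one _).2 (hle h3))
    refine hmax _ ⟨L ++ [y], ?_, h1, rfl⟩ h2
    intro r hr
    rcases List.mem_append.1 hr with hr | hr
    · exact hL r hr
    · rw [List.mem_singleton.1 hr]; exact hy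
  obtain ⟨p, hp, hmp⟩ := (Ideal.subset_union_prime_finite
    (associatedPrimes.finite R (R ⧸ Ideal.ofList L)) (f := id) 0 0
    (fun _ h _ _ => h.isPrime)).1 hsub
  have hpm : p = maximalIdeal R :=
    ((maximalIdeal.isMaximal R).eq_of_le hp.isPrime.ne_top hmp).symm
  have hp2 := isAssociatedPrime_iff.1 hp
  obtain ⟨-, x, hx⟩ := hp2
  obtain ⟨s, rfl⟩ := Submodule.Quotient.mk_surjective _ x
  refine ⟨s, ?_, ?_⟩
  · intro hs
    have h0 : (Submodule.Quotient.mk s : R ⧸ Ideal.ofList L) = 0 :=
      (Submodule.Quotient.mk_eq_zero _).2 hs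
    apply hp.isPrime.ne_top
    rw [hx, h0, Ideal.eq_top_iff_one]
    simp
  · intro y hy
    rw [← hpm, hx] at hy
    have : y • (Submodule.Quotient.mk s : R ⧸ Ideal.ofList L) = 0 := by simpa using hy
    rw [← Submodule.Quotient.mk_smul, Submodule.Quotient.mk_eq_zero] at this
    exact this

end Pool.Agent.H72.LD
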