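import Pool.Agent.H72.LD.Main
import Pool.Agent.H72.LD.Reg

/-!
# Reduction of a finite minimal resolution of the pushforward modulo a maximal regular sequence
-/

set_option autoImplicit false

namespace Pool.Agent.H72.LD

open IsLocalRing RingTheory.Sequence

variable {R : Type} [CommRing R] [IsLocalRing R] {M : Type} [AddCommGroup M] [Module R M]

/-- exactness modulo `J` -/
def ModExact (F : MinRes R M) (J : Ideal R) : Prop :=
  ∀ (i : ℕ) (z : Fin (F.rank (i + 1)) → R), (∀ c, F.d i z c ∈ J) →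
    ∃ u : Fin (F.rank (i + 2)) → R, ∀ c, z c - F.d (i + 1) u c ∈ J

theorem map_mem {m n : ℕ} (f : (Fin m → R) →ₗ[R] (Fin n → R)) (J : Ideal R) (v : Fin m → R)
    (hv : ∀ c, v c ∈ J) (c : Fin n) : f v c ∈ J := by
  rw [apply_eq]
  exact Ideal.sum_mem _ fun j _ => Ideal.mul_mem_right _ _ (hv j)

theorem modExact_step (F : MinRes R M) (J : Ideal R) (y : R) (h : ModExact F J)
    (hy : ∀ z, y * z ∈ J → z ∈ J)
    (h0 : ∀ r a : Fin (F.rank 0) → R, (∀ c, a c ∈ J) → F.aug (a + y • r) = 0 →
      ∃ u, ∀ c, r c - F.d 0 u c ∈ J) : ModExact F (J ⊔ Ideal.span {y}) := by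
  intro i z hz
  have hc : ∀ c, ∃ a ∈ J, ∃ r, F.d i z c = a + y * r := by
    intro c
    obtain ⟨a, ha, b, hb, hab⟩ := Submodule.mem_sup.1 (hz c)
    obtain ⟨r, rfl⟩ := Ideal.mem_span_singleton'.1 hb
    exact ⟨a, ha, r, by rw [← hab]; ring⟩
  choose a ha r hr using hc
  have hd : F.d i z = a + y • r := funext fun c => by rw [hr c]; rfl
  obtain ⟨u, hu⟩ : ∃ u, ∀ c, r c - F.d i u c ∈ J := by
    cases i with
    | zero =>
      apply h0 r a ha
      rw [← hd]
      exact (F.exactZero _).2 ⟨z, rfl⟩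
    | succ i =>
      apply h i r
      intro c
      apply hy
      have e : F.d i (F.d (i + 1) z) = 0 := comp_zero F i z
      rw [hd, map_add, map_smul] at e
      have e2 := congrFun e c
      simp only [Pi.add_apply, Pi.smul_apply, smul_eq_mul, Pi.zero_apply] at e2
      rw [eq_neg_of_add_eq_zero_right e2]
      exact J.neg_mem (map_mem _ J a ha c)
  obtain ⟨w, hw⟩ := h i (z - y • u) (by
    intro c
    rw [map_sub, map_smul, hd]
    have : (a + y • r - y • F.d i u) c = a c + y * (r c - F.d i u c) := by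
      simp only [Pi.sub_apply, Pi.add_apply, Pi.smul_apply, smul_eq_mul]; ring
    rw [this]
    exact J.add_mem (ha c) (J.mul_mem_left _ (hu c)))
  refine ⟨w, fun c => ?_⟩
  have : z c - F.d (i + 1) w c = ((z - y • u) c - F.d (i + 1) w c) + u c * y := by
    simp only [Pi.sub_apply, Pi.smul_apply, smul_eq_mul]; ring
  rw [this]
  exact Ideal.add_mem _ (Ideal.mem_sup_left (hw c))
    (Ideal.mem_sup_right (Ideal.mul_mem_left _ _ (Ideal.mem_span_singleton_self y)))

section

variable (p e : ℕ) (ψ : M ≃+ R) (hψ : ∀ (r : R) (x : M), ψ (r • x) = r ^ p ^ e * ψ x)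

include hψ

theorem aug_eq (F : MinRes R M) (v : Fin (F.rank 0) → R) :
    ψ (F.aug v) = ∑ j, v j ^ p ^ e * ψ (F.aug (bv R j)) := by
  have := LinearMap.pi_apply_eq_sum_univ F.aug v
  rw [this, map_sum]
  exact Finset.sum_congr rfl fun j _ => by rw [hψ]; rfl

theorem aug_step (hp : p.Prime) [CharP R p] (F : MinRes R M) (L : List R) (y : R)
    (hy : ∀ z, y ^ p ^ e * z ∈ Ideal.ofList (L.map (· ^ p ^ e)) →
      z ∈ Ideal.ofList (L.map (· ^ p ^ e)))
    (r a : Fin (F.rank 0) → R) (ha : ∀ c, a c ∈ Ideal.ofList L) (h : F.aug (a + y • r) = 0) :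
    ∃ u, ∀ c, r c - F.d 0 u c ∈ Ideal.ofList L := by
  haveI : ExpChar R p := ExpChar.prime hp
  have hmap : Ideal.ofList (L.map (· ^ p ^ e)) =
      (Ideal.ofList L).map (iterateFrobenius R p e) := by
    rw [Ideal.map_ofList]
    congr 1
  have h1 : ψ (F.aug a) ∈ (Ideal.ofList L).map (iterateFrobenius R p e) := by
    rw [aug_eq p e ψ hψ]
    refine Ideal.sum_mem _ fun j _ => Ideal.mul_mem_right _ _ ?_
    exact Ideal.mem_map_of_mem (iterateFrobenius R p e) (ha j)
  have h2 : ∀ x ∈ (Ideal.ofList L).map (iterateFrobenius R p e), ∀ c : R,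
      ∃ b : Fin (F.rank 0) → R, (∀ j, b j ∈ Ideal.ofList L) ∧ ψ (F.aug b) = c * x := by
    intro x hx
    refine Submodule.span_induction (p := fun x _ => ∀ c : R,
      ∃ b : Fin (F.rank 0) → R, (∀ j, b j ∈ Ideal.ofList L) ∧ ψ (F.aug b) = c * x)
      ?_ ?_ ?_ ?_ hx
    · rintro _ ⟨l, hl, rfl⟩ c
      obtain ⟨v, hv⟩ := F.surj (ψ.symm c)
      refine ⟨l • v, fun j => Ideal.mul_mem_right _ _ hl, ?_⟩
      rw [map_smul, hψ, hv, AddEquiv.apply_symm_apply, mul_comm]
      rfl
    · intro c
      exact ⟨0, fun j => Ideal.zero_mem _, by simp⟩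
    · intro x y _ _ hx hy c
      obtain ⟨b, hb, hb2⟩ := hx c
      obtain ⟨b', hb', hb2'⟩ := hy c
      exact ⟨b + b', fun j => Ideal.add_mem _ (hb j) (hb' j), by
        rw [map_add, map_add, hb2, hb2', mul_add]⟩
    · intro r x _ hx c
      obtain ⟨b, hb, hb2⟩ := hx (c * r)
      exact ⟨b, hb, by rw [hb2, smul_eq_mul, mul_assoc]⟩
  have h3 : ψ (F.aug r) ∈ (Ideal.ofList L).map (iterateFrobenius R p e) := by
    rw [← hmap]
    apply hy
    rw [hmap]
    rw [map_add, map_smul] at h
    have h4 := congrArg ψ h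
    rw [map_add, hψ, map_zero] at h4
    rw [eq_neg_of_add_eq_zero_right h4]
    exact Ideal.neg_mem_iff _ |>.2 h1
  obtain ⟨b, hb, hb2⟩ := h2 _ h3 1
  rw [one_mul] at hb2
  have h5 : F.aug (r - b) = 0 := by
    rw [map_sub, ψ.injective hb2, sub_self]
  obtain ⟨u, hu⟩ := (F.exactZero _).1 h5
  refine ⟨u, fun c => ?_⟩
  rw [hu]
  simpa using hb c

theorem modExact_list (hp : p.Prime) [CharP R p] (F : MinRes R M) (L : List R)
    (h1 : IsWeaklyRegular R L) (h2 : IsWeaklyRegular R (L.map (· ^ p ^ e))) :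
    ModExact F (Ideal.ofList L) := by
  induction L using List.reverseRecOn with
  | nil =>
    intro i z hz
    have : F.d i z = 0 := funext fun c => by simpa using hz c
    obtain ⟨u, hu⟩ := (F.exact i z).1 this
    exact ⟨u, fun c => by rw [hu]; simp⟩
  | append_singleton L y ih =>
    rw [snoc_iff] at h1
    rw [List.map_append, List.map_singleton, snoc_iff] at h2
    rw [Ideal.ofList_append, Ideal.ofList_singleton]
    exact modExact_step F _ y (ih h1.1 h2.1) h1.2
      fun r a ha h => aug_step p e ψ hψ hp F L y h2.2 r a ha h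

end

theorem down (F : MinRes R M) (J : Ideal R) (h : ModExact F J) (s : R) (hs : s ∉ J)
    (hms : ∀ x ∈ maximalIdeal R, x * s ∈ J) (N : ℕ) (hN : F.rank (N + 1) = 0) :
    F.rank 1 = 0 := by
  induction N with
  | zero => exact hN
  | succ N ih =>
    apply ih
    by_contra hr
    have j : Fin (F.rank (N + 1)) := ⟨0, Nat.pos_of_ne_zero hr⟩
    obtain ⟨y, hy⟩ := h N (s • bv R j) (by
      intro c
      rw [map_smul, Pi.smul_apply, smul_eq_mul, mul_comm]
      exact hms _ (F.minimal N _ c))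
    have hy0 : y = 0 := by
      funext l
      exact absurd l.isLt (by have h9 : F.rank (N + 2) = 0 := hN; omega)
    have := hy j
    rw [hy0, map_zero] at this
    simp [bv] at this
    exact hs this

/-- a finite minimal resolution of the pushforward has length zero -/
theorem rank_one [IsNoetherianRing R] (p e : ℕ) (hp : p.Prime) [CharP R p]
    (hM : IsPushforward p e R M) (F : MinRes R M) (N : ℕ) (hN : F.rank (N + 1) = 0) :
    F.rank 1 = 0 := by
  obtain ⟨ψ, hψ⟩ := hM
  obtain ⟨L, hL, hreg, s, hs, hms⟩ := exists_max R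
  have hpow := pow_reg (p ^ e) (pow_ne_zero _ hp.ne_zero) L hL hreg
  exact down F _ (modExact_list p e ψ hψ hp F L hreg hpow) s hs hms N hN

/-- exactness modulo `J` in degrees greater than `k` -/
def ModExactGE (F : MinRes R M) (J : Ideal R) (k : ℕ) : Prop :=
  ∀ (i : ℕ), k ≤ i → ∀ (z : Fin (F.rank (i + 1)) → R), (∀ c, F.d i z c ∈ J) →
    ∃ u : Fin (F.rank (i + 2)) → R, ∀ c, z c - F.d (i + 1) u c ∈ J

theorem modExactGE_step (F : MinRes R M) (J : Ideal R) (y : R) (k : ℕ) (h : ModExactGE F J k)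
    (hy : ∀ z, y * z ∈ J → z ∈ J) : ModExactGE F (J ⊔ Ideal.span {y}) (k + 1) := by
  intro i hi z hz
  have hc : ∀ c, ∃ a ∈ J, ∃ r, F.d i z c = a + y * r := by
    intro c
    obtain ⟨a, ha, b, hb, hab⟩ := Submodule.mem_sup.1 (hz c)
    obtain ⟨r, rfl⟩ := Ideal.mem_span_singleton'.1 hb
    exact ⟨a, ha, r, by rw [← hab]; ring⟩
  choose a ha r hr using hc
  have hd : F.d i z = a + y • r := funext fun c => by rw [hr c]; rfl
  obtain ⟨u, hu⟩ : ∃ u, ∀ c, r c - F.d i u c ∈ J := by
    cases i with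
    | zero => omega
    | succ i =>
      apply h i (by omega) r
      intro c
      apply hy
      have e : F.d i (F.d (i + 1) z) = 0 := comp_zero F i z
      rw [hd, map_add, map_smul] at e
      have e2 := congrFun e c
      simp only [Pi.add_apply, Pi.smul_apply, smul_eq_mul, Pi.zero_apply] at e2
      rw [eq_neg_of_add_eq_zero_right e2]
      exact J.neg_mem (map_mem _ J a ha c)
  obtain ⟨w, hw⟩ := h i (by omega) (z - y • u) (by
    intro c
    rw [map_sub, map_smul, hd]
    have : (a + y • r - y • F.d i u) c = a c + y * (r c - F.d i u c) := by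
      simp only [Pi.sub_apply, Pi.add_apply, Pi.smul_apply, smul_eq_mul]; ring
    rw [this]
    exact J.add_mem (ha c) (J.mul_mem_left _ (hu c)))
  refine ⟨w, fun c => ?_⟩
  have : z c - F.d (i + 1) w c = ((z - y • u) c - F.d (i + 1) w c) + u c * y := by
    simp only [Pi.sub_apply, Pi.smul_apply, smul_eq_mul]; ring
  rw [this]
  exact Ideal.add_mem _ (Ideal.mem_sup_left (hw c))
    (Ideal.mem_sup_right (Ideal.mul_mem_left _ _ (Ideal.mem_span_singleton_self y)))

theorem modExactGE_list (F : MinRes R M) (L : List R) (h1 : IsWeaklyRegular R L) :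
    ModExactGE F (Ideal.ofList L) L.length := by
  induction L using List.reverseRecOn with
  | nil =>
    intro i _ z hz
    have : F.d i z = 0 := funext fun c => by simpa using hz c
    obtain ⟨u, hu⟩ := (F.exact i z).1 this
    exact ⟨u, fun c => by rw [hu]; simp⟩
  | append_singleton L y ih =>
    rw [snoc_iff] at h1
    rw [Ideal.ofList_append, Ideal.ofList_singleton, List.length_append, List.length_singleton]
    exact modExactGE_step F _ y _ (ih h1.1) h1.2

/-- over a ring whose maximal ideal is generated by a regular sequence of length `n`, minimal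
resolutions have length at most `n` -/
theorem rank_zero_of_regular (F : MinRes R M) (L : List R) (h1 : IsWeaklyRegular R L)
    (hL : Ideal.ofList L = maximalIdeal R) (i : ℕ) (hi : L.length < i) : F.rank i = 0 := by
  by_contra hr
  obtain ⟨i, rfl⟩ : ∃ i', i = i' + 1 := ⟨i - 1, by omega⟩
  have j : Fin (F.rank (i + 1)) := ⟨0, Nat.pos_of_ne_zero hr⟩
  obtain ⟨u, hu⟩ := modExactGE_list F L h1 i (by omega) (bv R j) (fun c => by
    rw [hL]; exact F.minimal i _ c)
  have h2 := hu j
  rw [hL] at h2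
  have h3 := Ideal.add_mem _ h2 (F.minimal (i + 1) u j)
  rw [sub_add_cancel] at h3
  simp [bv] at h3

end Pool.Agent.H72.LD
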