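import Pool.Agent.H72.LD.Summand
import Pool.Agent.H72.LD.ModJ

/-!
# Cones: the linearity defect modulo a regular sequence
-/

set_option autoImplicit false

namespace Pool.Agent.H72.LD.Cone

open IsLocalRing Finset RingTheory.Sequence

/-- a minimal free resolution with arbitrary finite bases -/
structure GRes (R : Type) [CommRing R] [IsLocalRing R] (M : Type) [AddCommGroup M]
    [Module R M] where
  ι : ℕ → Type
  fin : ∀ i, Fintype (ι i)
  d : (i : ℕ) → (ι (i + 1) → R) →ₗ[R] (ι i → R)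
  aug : (ι 0 → R) →ₗ[R] M
  surj : Function.Surjective aug
  exactZero : ∀ x, aug x = 0 ↔ x ∈ LinearMap.range (d 0)
  exact : ∀ i x, d i x = 0 ↔ x ∈ LinearMap.range (d (i + 1))
  minimal : ∀ i x c, d i x c ∈ maximalIdeal R

attribute [instance] GRes.fin

variable {R : Type} [CommRing R] [IsLocalRing R] {M : Type} [AddCommGroup M] [Module R M]
  {N : Type} [AddCommGroup N] [Module R N]

/-- linear exactness -/
def GLin (F : GRes R M) (i : ℕ) : Prop :=
  ∀ (j : ℕ) (x : F.ι (i + 1) → R), (∀ c, x c ∈ maximalIdeal R ^ j) →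
    (∀ c, F.d i x c ∈ maximalIdeal R ^ (j + 2)) →
    ∃ y : F.ι (i + 2) → R, (∀ c, y c ∈ maximalIdeal R ^ (j - 1)) ∧
      ∀ c, x c - F.d (i + 1) y c ∈ maximalIdeal R ^ (j + 1)

/-- a minimal resolution as a `GRes` -/
def ofMin (F : MinRes R M) : GRes R M where
  ι i := Fin (F.rank i)
  fin _ := inferInstance
  d := F.d
  aug := F.aug
  surj := F.surj
  exactZero := F.exactZero
  exact := F.exact
  minimal := F.minimal

theorem comp0 (F : GRes R M) (i : ℕ) (v : F.ι (i + 2) → R) : F.d i (F.d (i + 1) v) = 0 :=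
  (F.exact i _).2 ⟨v, rfl⟩

theorem aug0 (F : GRes R M) (v : F.ι 1 → R) : F.aug (F.d 0 v) = 0 :=
  (F.exactZero _).2 ⟨v, rfl⟩

theorem lift_range {α : Type} [Fintype α] {Q S : Type} [AddCommGroup Q] [Module R Q]
    [AddCommGroup S] [Module R S]
    (d : Q →ₗ[R] S) (φ : (α → R) →ₗ[R] S) (h : ∀ x, φ x ∈ LinearMap.range d) :
    ∃ ψ : (α → R) →ₗ[R] Q, ∀ x, d (ψ x) = φ x := by
  obtain ⟨ψ, hψ⟩ := Module.projective_lifting_property d.rangeRestrict
    (φ.codRestrict (LinearMap.range d) h) (LinearMap.surjective_rangeRestrict d)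
  refine ⟨ψ, fun x => ?_⟩
  have := congrArg Subtype.val (LinearMap.congr_fun hψ x)
  simpa using this

/-- the recursion for chain maps -/
noncomputable def cm (F : GRes R M) (G : GRes R N)
    (f0 : {f : (G.ι 0 → R) →ₗ[R] (F.ι 0 → R) //
      ∀ y, f (G.d 0 y) ∈ LinearMap.range (F.d 0)}) :
    (i : ℕ) → {f : (G.ι i → R) →ₗ[R] (F.ι i → R) //
      ∀ y, f (G.d i y) ∈ LinearMap.range (F.d i)}
  | 0 => f0
  | i + 1 => ⟨Classical.choose (lift_range (F.d i) ((cm F G f0 i).1 ∘ₗ G.d i)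
      (fun x => (cm F G f0 i).2 x)), fun y => by
        rw [← F.exact]
        rw [Classical.choose_spec (lift_range (F.d i) ((cm F G f0 i).1 ∘ₗ G.d i)
          (fun x => (cm F G f0 i).2 x)) (G.d (i + 1) y)]
        rw [LinearMap.comp_apply, comp0, map_zero]⟩

theorem chain_map (F : GRes R M) (G : GRes R N)
    (f0 : (G.ι 0 → R) →ₗ[R] (F.ι 0 → R))
    (h0 : ∀ y, f0 (G.d 0 y) ∈ LinearMap.range (F.d 0)) :
    ∃ f : (i : ℕ) → (G.ι i → R) →ₗ[R] (F.ι i → R),
      f 0 = f0 ∧ ∀ i y, F.d i (f (i + 1) y) = f i (G.d i y) :=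
  ⟨fun i => (cm F G ⟨f0, h0⟩ i).1, rfl, fun i y =>
    Classical.choose_spec (lift_range (F.d i) ((cm F G ⟨f0, h0⟩ i).1 ∘ₗ G.d i)
      (fun x => (cm F G ⟨f0, h0⟩ i).2 x)) y⟩

/-- the recursion for homotopies -/
noncomputable def hm (G : GRes R N) (φ : (i : ℕ) → (G.ι i → R) →ₗ[R] (G.ι i → R))
    (hφ : ∀ i y, G.d i (φ (i + 1) y) = φ i (G.d i y))
    (h0 : {h : (G.ι 0 → R) →ₗ[R] (G.ι 1 → R) //
      ∀ y, G.d 0 (h (G.d 0 y)) = φ 0 (G.d 0 y) - G.d 0 y}) :
    (i : ℕ) → {h : (G.ι i → R) →ₗ[R] (G.ι (i + 1) → R) //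
      ∀ y, G.d i (h (G.d i y)) = φ i (G.d i y) - G.d i y}
  | 0 => h0
  | i + 1 =>
    have key : ∀ x, (φ (i + 1) - LinearMap.id - (hm G φ hφ h0 i).1 ∘ₗ G.d i :
        (G.ι (i + 1) → R) →ₗ[R] (G.ι (i + 1) → R)) x ∈
        LinearMap.range (G.d (i + 1)) := fun x => by
      rw [← G.exact]
      rw [LinearMap.sub_apply, LinearMap.sub_apply, LinearMap.comp_apply, LinearMap.id_apply,
        map_sub, map_sub, hφ, (hm G φ hφ h0 i).2 x]
      exact sub_self _
    ⟨Classical.choose (lift_range (G.d (i + 1)) _ key), fun y => by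
      rw [Classical.choose_spec (lift_range (G.d (i + 1)) _ key) (G.d (i + 1) y)]
      rw [LinearMap.sub_apply, LinearMap.sub_apply, LinearMap.comp_apply, LinearMap.id_apply,
        comp0, map_zero, sub_zero]⟩

theorem homotopy (G : GRes R N) (φ : (i : ℕ) → (G.ι i → R) →ₗ[R] (G.ι i → R))
    (hφ : ∀ i y, G.d i (φ (i + 1) y) = φ i (G.d i y))
    (h0 : ∀ x, φ 0 x - x ∈ LinearMap.range (G.d 0)) :
    ∃ h : (i : ℕ) → (G.ι i → R) →ₗ[R] (G.ι (i + 1) → R),
      ∀ i x, G.d (i + 1) (h (i + 1) x) = φ (i + 1) x - x - h i (G.d i x) := by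
  obtain ⟨k, hk⟩ := lift_range (G.d 0) (φ 0 - LinearMap.id) (fun x => by
    rw [LinearMap.sub_apply, LinearMap.id_apply]; exact h0 x)
  have hk' : ∀ y, G.d 0 (k (G.d 0 y)) = φ 0 (G.d 0 y) - G.d 0 y := fun y => by
    rw [hk]; rfl
  refine ⟨fun i => (hm G φ hφ ⟨k, hk'⟩ i).1, fun i x => ?_⟩
  have key : ∀ x, (φ (i + 1) - LinearMap.id - (hm G φ hφ ⟨k, hk'⟩ i).1 ∘ₗ G.d i :
        (G.ι (i + 1) → R) →ₗ[R] (G.ι (i + 1) → R)) x ∈
        LinearMap.range (G.d (i + 1)) := fun x => by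
      rw [← G.exact]
      rw [LinearMap.sub_apply, LinearMap.sub_apply, LinearMap.comp_apply, LinearMap.id_apply,
        map_sub, map_sub, hφ, (hm G φ hφ ⟨k, hk'⟩ i).2 x]
      exact sub_self _
  exact Classical.choose_spec (lift_range (G.d (i + 1)) _ key) x

omit [IsLocalRing R] in
theorem map_memG {α β : Type} [Fintype α] (f : (α → R) →ₗ[R] (β → R)) (J : Ideal R) (v : α → R)
    (hv : ∀ c, v c ∈ J) (c : β) : f v c ∈ J := by
  classical
  have := LinearMap.pi_apply_eq_sum_univ f v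
  rw [this, Finset.sum_apply]
  exact Ideal.sum_mem _ fun j _ => Ideal.mul_mem_right _ _ (hv j)

/-- linear exactness passes to retracts -/
theorem retract (F : GRes R M) (G : GRes R N)
    (f0 : (G.ι 0 → R) →ₗ[R] (F.ι 0 → R))
    (g0 : (F.ι 0 → R) →ₗ[R] (G.ι 0 → R))
    (hf0 : ∀ y, f0 (G.d 0 y) ∈ LinearMap.range (F.d 0))
    (hg0 : ∀ y, g0 (F.d 0 y) ∈ LinearMap.range (G.d 0))
    (hgf : ∀ x, g0 (f0 x) - x ∈ LinearMap.range (G.d 0)) (i : ℕ) (h : GLin F i) :
    GLin G i := by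
  obtain ⟨f, hf, hfc⟩ := chain_map F G f0 hf0
  obtain ⟨g, hg, hgc⟩ := chain_map G F g0 hg0
  obtain ⟨k, hk⟩ := homotopy G (fun i => g i ∘ₗ f i) (fun i y => by
    rw [LinearMap.comp_apply, LinearMap.comp_apply, hgc, hfc]) (fun x => by
    rw [LinearMap.comp_apply, hf, hg]; exact hgf x)
  intro j x hx hdx
  obtain ⟨y, hy, hy2⟩ := h j (f (i + 1) x) (map_memG _ _ x hx) (by
    intro c
    rw [hfc]
    exact map_memG _ _ _ hdx c)
  refine ⟨g (i + 2) y - k (i + 1) x, ?_, ?_⟩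
  · intro c
    refine Ideal.sub_mem _ (map_memG _ _ _ hy c) (map_memG _ _ _ (fun c => ?_) c)
    exact Ideal.pow_le_pow_right (Nat.sub_le j 1) (hx c)
  · intro c
    have e1 := congrFun (hk i x) c
    rw [map_sub, hgc]
    have e2 : x c - (g (i + 1) (F.d (i + 1) y) - G.d (i + 1) (k (i + 1) x)) c =
        g (i + 1) (f (i + 1) x - F.d (i + 1) y) c - k i (G.d i x) c := by
      rw [map_sub, Pi.sub_apply, Pi.sub_apply, e1, Pi.sub_apply, Pi.sub_apply,
        LinearMap.comp_apply]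
      ring
    rw [e2]
    refine Ideal.sub_mem _ (map_memG _ _ _ hy2 c) ?_
    exact Ideal.pow_le_pow_right (by omega) (map_memG _ _ _ hdx c)

/-- the residue field is a direct summand -/
theorem summandG (a : M) (ha : ∀ r ∈ maximalIdeal R, r • a = 0)
    (hna : a ∉ maximalIdeal R • (⊤ : Submodule R M))
    (F : GRes R M) (G : GRes R (ResidueField R)) (i : ℕ) (h : GLin F i) :
    GLin G i := by
  classical
  obtain ⟨u, hu⟩ := F.surj a
  obtain ⟨c, hc⟩ : ∃ c, u c ∉ maximalIdeal R := by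
    by_contra hcon
    push Not at hcon
    apply hna
    rw [← hu, LinearMap.pi_apply_eq_sum_univ F.aug u]
    exact Submodule.sum_mem _ fun j _ => Submodule.smul_mem_smul (hcon j) trivial
  have hunit : IsUnit (u c) := by
    by_contra hne
    exact hc ((mem_maximalIdeal _).2 hne)
  obtain ⟨w, hw⟩ := hunit
  obtain ⟨ε, hε⟩ := G.surj 1
  obtain ⟨l, hl⟩ := lift_range (α := G.ι 0) (Algebra.linearMap R (ResidueField R)) G.aug
    (fun x => by
      obtain ⟨r, hr⟩ := residue_surjective (R := R) (G.aug x)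
      exact ⟨r, hr⟩)
  have hl' : ∀ x, residue R (l x) = G.aug x := hl
  have hsm : ∀ (r : R) (z : ResidueField R), r • z = residue R r * z := fun r z =>
    Algebra.smul_def r z
  refine retract F G ((LinearMap.toSpanSingleton R _ u) ∘ₗ l)
    ((LinearMap.toSpanSingleton R _ ε) ∘ₗ (((w⁻¹ : Rˣ) : R) •
      (LinearMap.proj c : (F.ι 0 → R) →ₗ[R] R))) ?_ ?_ ?_ i h
  · intro y
    rw [← F.exactZero, LinearMap.comp_apply, LinearMap.toSpanSingleton_apply, map_smul, hu]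
    apply ha
    rw [← residue_eq_zero_iff, hl']
    exact (G.exactZero _).2 ⟨y, rfl⟩
  · intro y
    rw [← G.exactZero, LinearMap.comp_apply, LinearMap.toSpanSingleton_apply, map_smul, hε, hsm,
      mul_one, residue_eq_zero_iff, LinearMap.smul_apply, smul_eq_mul]
    exact Ideal.mul_mem_left _ _ (F.minimal 0 y c)
  · intro x
    rw [← G.exactZero, map_sub, LinearMap.comp_apply, LinearMap.toSpanSingleton_apply, map_smul,
      hε, hsm, mul_one, LinearMap.smul_apply, LinearMap.comp_apply,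
      LinearMap.toSpanSingleton_apply, LinearMap.proj_apply, Pi.smul_apply, smul_eq_mul,
      smul_eq_mul, ← hw]
    have : ((w⁻¹ : Rˣ) : R) * (l x * (w : R)) = l x := by
      rw [mul_comm (l x), ← mul_assoc, Units.inv_mul, one_mul]
    rw [this, hl', sub_self]

end Pool.Agent.H72.LD.Cone
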