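import Pool.Agent.H72.LD.Cone

/-!
# The cone of a regular element
-/

set_option autoImplicit false

namespace Pool.Agent.H72.LD.Cone

open IsLocalRing Finset RingTheory.Sequence
open scoped Pointwise

section elim

variable {R : Type} [CommRing R] {V : Type} [AddCommGroup V] [Module R V] {α β : Type}

/-- pairing of two maps -/
def elimL (A : V →ₗ[R] (α → R)) (B : V →ₗ[R] (β → R)) : V →ₗ[R] (α ⊕ β → R) where
  toFun v := Sum.elim (A v) (B v)
  map_add' v w := by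
    funext c
    cases c <;> simp
  map_smul' r v := by
    funext c
    cases c <;> simp

/-- first part -/
def pl : (α ⊕ β → R) →ₗ[R] (α → R) where
  toFun v := fun a => v (Sum.inl a)
  map_add' _ _ := rfl
  map_smul' _ _ := rfl

/-- second part -/
def pr : (α ⊕ β → R) →ₗ[R] (β → R) where
  toFun v := fun a => v (Sum.inr a)
  map_add' _ _ := rfl
  map_smul' _ _ := rfl

end elim

variable {R : Type} [CommRing R] [IsLocalRing R] {M : Type} [AddCommGroup M] [Module R M]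

/-- index types of the cone -/
def cι (F : GRes R M) : ℕ → Type
  | 0 => F.ι 0
  | i + 1 => F.ι (i + 1) ⊕ F.ι i

/-- finiteness -/
def cfin (F : GRes R M) : ∀ i, Fintype (cι F i)
  | 0 => F.fin 0
  | i + 1 => inferInstanceAs (Fintype (F.ι (i + 1) ⊕ F.ι i))

/-- the differential of the cone -/
noncomputable def cd (F : GRes R M) (z : R) : (i : ℕ) → (cι F (i + 1) → R) →ₗ[R] (cι F i → R)
  | 0 => (F.d 0 ∘ₗ (pl : (F.ι 1 ⊕ F.ι 0 → R) →ₗ[R] (F.ι 1 → R)) +
      z • (pr : (F.ι 1 ⊕ F.ι 0 → R) →ₗ[R] (F.ι 0 → R)) :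
      (F.ι 1 ⊕ F.ι 0 → R) →ₗ[R] (F.ι 0 → R))
  | i + 1 => (elimL (F.d (i + 1) ∘ₗ (pl : (F.ι (i + 2) ⊕ F.ι (i + 1) → R) →ₗ[R] (F.ι (i + 2) → R)) +
      z • (pr : (F.ι (i + 2) ⊕ F.ι (i + 1) → R) →ₗ[R] (F.ι (i + 1) → R)))
      (-(F.d i ∘ₗ (pr : (F.ι (i + 2) ⊕ F.ι (i + 1) → R) →ₗ[R] (F.ι (i + 1) → R)))) :
      (F.ι (i + 2) ⊕ F.ι (i + 1) → R) →ₗ[R] (F.ι (i + 1) ⊕ F.ι i → R))

theorem cd_zero (F : GRes R M) (z : R) (x : F.ι 1 ⊕ F.ι 0 → R) :
    (cd F z 0 x : F.ι 0 → R) = F.d 0 (pl x) + z • pr x := rfl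

theorem cd_inl (F : GRes R M) (z : R) (i : ℕ) (x : F.ι (i + 2) ⊕ F.ι (i + 1) → R)
    (a : F.ι (i + 1)) :
    (cd F z (i + 1) x : F.ι (i + 1) ⊕ F.ι i → R) (Sum.inl a) =
      (F.d (i + 1) (pl x) + z • pr x) a := rfl

theorem cd_inr (F : GRes R M) (z : R) (i : ℕ) (x : F.ι (i + 2) ⊕ F.ι (i + 1) → R)
    (b : F.ι i) :
    (cd F z (i + 1) x : F.ι (i + 1) ⊕ F.ι i → R) (Sum.inr b) = (-(F.d i (pr x))) b := rfl

theorem cd_eq_zero (F : GRes R M) (z : R) (i : ℕ) (x : F.ι (i + 2) ⊕ F.ι (i + 1) → R) :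
    cd F z (i + 1) x = 0 ↔ F.d (i + 1) (pl x) + z • pr x = 0 ∧ F.d i (pr x) = 0 := by
  constructor
  · intro h
    constructor
    · funext a
      exact (cd_inl F z i x a).symm.trans (congrFun h (Sum.inl a))
    · funext b
      have h9 : -(F.d i (pr x) b) = 0 := (cd_inr F z i x b).symm.trans (congrFun h (Sum.inr b))
      exact neg_eq_zero.1 h9
  · rintro ⟨h1, h2⟩
    funext c
    change F.ι (i + 1) ⊕ F.ι i at c
    rcases c with a | b
    · exact (cd_inl F z i x a).trans (congrFun h1 a)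
    · refine (cd_inr F z i x b).trans ?_
      rw [h2]
      exact neg_zero

/-- the image of the differential of the cone -/
theorem mem_range_c (F : GRes R M) (z : R) (i : ℕ) (x : F.ι (i + 1) ⊕ F.ι i → R) :
    x ∈ LinearMap.range (cd F z (i + 1)) ↔
      ∃ (u : F.ι (i + 2) → R) (v : F.ι (i + 1) → R),
        F.d (i + 1) u + z • v = pl x ∧ -(F.d i v) = pr x := by
  constructor
  · rintro ⟨w, hw⟩
    change F.ι (i + 2) ⊕ F.ι (i + 1) → R at w
    refine ⟨pl w, pr w, ?_, ?_⟩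
    · funext a
      exact (cd_inl F z i w a).symm.trans (congrFun hw (Sum.inl a))
    · funext b
      exact (cd_inr F z i w b).symm.trans (congrFun hw (Sum.inr b))
  · rintro ⟨u, v, h1, h2⟩
    refine ⟨(Sum.elim u v : F.ι (i + 2) ⊕ F.ι (i + 1) → R), ?_⟩
    funext c
    change F.ι (i + 1) ⊕ F.ι i at c
    rcases c with a | b
    · exact (cd_inl F z i _ a).trans (congrFun h1 a)
    · exact (cd_inr F z i _ b).trans (congrFun h2 b)

theorem mem_range_c0 (F : GRes R M) (z : R) (x : F.ι 0 → R) :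
    x ∈ LinearMap.range (cd F z 0) ↔
      ∃ (u : F.ι 1 → R) (v : F.ι 0 → R), F.d 0 u + z • v = x := by
  constructor
  · rintro ⟨w, hw⟩
    change F.ι 1 ⊕ F.ι 0 → R at w
    exact ⟨pl w, pr w, hw⟩
  · rintro ⟨u, v, h1⟩
    exact ⟨(Sum.elim u v : F.ι 1 ⊕ F.ι 0 → R), h1⟩

theorem core_aug (F : GRes R M) (z : R) (x : F.ι 0 → R) :
    F.aug x ∈ z • (⊤ : Submodule R M) ↔
      ∃ (u : F.ι 1 → R) (v : F.ι 0 → R), F.d 0 u + z • v = x := by
  constructor
  · intro h
    obtain ⟨m, -, hm⟩ := (Submodule.mem_smul_pointwise_iff_exists _ _ _).1 h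
    obtain ⟨v, rfl⟩ := F.surj m
    have h1 : F.aug (x - z • v) = 0 := by rw [map_sub, map_smul, hm, sub_self]
    obtain ⟨u, hu⟩ := (F.exactZero _).1 h1
    exact ⟨u, v, by rw [hu, sub_add_cancel]⟩
  · rintro ⟨u, v, rfl⟩
    rw [map_add, aug0, zero_add, map_smul]
    exact Submodule.smul_mem_pointwise_smul _ _ _ trivial

theorem core_zero (F : GRes R M) (z : R) (hr : IsSMulRegular M z) (x : F.ι 1 → R)
    (y : F.ι 0 → R) : F.d 0 x + z • y = 0 ↔
      ∃ (u : F.ι 2 → R) (v : F.ι 1 → R), F.d 1 u + z • v = x ∧ -(F.d 0 v) = y := by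
  constructor
  · intro h1
    have h2 : z • F.aug y = z • (0 : M) := by
      have := congrArg F.aug h1
      rw [map_add, aug0, zero_add, map_smul, map_zero] at this
      rw [this, smul_zero]
    obtain ⟨w, hw⟩ := (F.exactZero _).1 (hr h2)
    have h3 : F.d 0 (x + z • w) = 0 := by rw [map_add, map_smul, hw]; exact h1
    obtain ⟨u, hu⟩ := (F.exact 0 _).1 h3
    refine ⟨u, -w, ?_, ?_⟩
    · rw [hu, smul_neg, add_neg_cancel_right]
    · rw [map_neg, neg_neg, hw]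
  · rintro ⟨u, v, h1, h2⟩
    rw [← h1, ← h2, map_add, comp0, map_smul, zero_add, smul_neg, add_neg_cancel]

theorem core_succ (F : GRes R M) (z : R) (i : ℕ) (x : F.ι (i + 2) → R)
    (y : F.ι (i + 1) → R) : (F.d (i + 1) x + z • y = 0 ∧ F.d i y = 0) ↔
      ∃ (u : F.ι (i + 3) → R) (v : F.ι (i + 2) → R),
        F.d (i + 2) u + z • v = x ∧ -(F.d (i + 1) v) = y := by
  constructor
  · rintro ⟨h1, h2⟩
    obtain ⟨w, hw⟩ := (F.exact i _).1 h2
    have h3 : F.d (i + 1) (x + z • w) = 0 := by rw [map_add, map_smul, hw]; exact h1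
    obtain ⟨u, hu⟩ := (F.exact (i + 1) _).1 h3
    refine ⟨u, -w, ?_, ?_⟩
    · rw [hu, smul_neg, add_neg_cancel_right]
    · rw [map_neg, neg_neg, hw]
  · rintro ⟨u, v, h1, h2⟩
    rw [← h1, ← h2]
    refine ⟨?_, ?_⟩
    · rw [map_add, comp0, map_smul, zero_add, smul_neg, add_neg_cancel]
    · rw [map_neg, comp0, neg_zero]

theorem cone_exact (F : GRes R M) (z : R) (hr : IsSMulRegular M z) :
    ∀ (i : ℕ) (x : cι F (i + 1) → R), cd F z i x = 0 ↔ x ∈ LinearMap.range (cd F z (i + 1))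
  | 0, x => (core_zero F z hr (pl (show F.ι 1 ⊕ F.ι 0 → R from x))
      (pr (show F.ι 1 ⊕ F.ι 0 → R from x))).trans (mem_range_c F z 0 x).symm
  | i + 1, x => (cd_eq_zero F z i x).trans ((core_succ F z i
      (pl (show F.ι (i + 2) ⊕ F.ι (i + 1) → R from x))
      (pr (show F.ι (i + 2) ⊕ F.ι (i + 1) → R from x))).trans (mem_range_c F z (i + 1) x).symm)

theorem cone_minimal (F : GRes R M) (z : R) (hz : z ∈ maximalIdeal R) :
    ∀ (i : ℕ) (x : cι F (i + 1) → R) (c : cι F i), cd F z i x c ∈ maximalIdeal R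
  | 0, x, c => by
    change F.ι 1 ⊕ F.ι 0 → R at x
    change F.ι 0 at c
    show (F.d 0 (pl x) + z • pr x) c ∈ _
    exact Ideal.add_mem _ (F.minimal 0 _ c) (Ideal.mul_mem_right _ _ hz)
  | i + 1, x, c => by
    change F.ι (i + 2) ⊕ F.ι (i + 1) → R at x
    change F.ι (i + 1) ⊕ F.ι i at c
    rcases c with a | b
    · show (F.d (i + 1) (pl x) + z • pr x) a ∈ _
      exact Ideal.add_mem _ (F.minimal (i + 1) _ a) (Ideal.mul_mem_right _ _ hz)
    · show (-(F.d i (pr x))) b ∈ _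
      exact (Ideal.neg_mem_iff _).2 (F.minimal i _ b)

/-- the cone of an `M`-regular element is a minimal resolution of `M / z M` -/
noncomputable def cone (F : GRes R M) (z : R) (hz : z ∈ maximalIdeal R) (hr : IsSMulRegular M z) :
    GRes R (QuotSMulTop z M) where
  ι := cι F
  fin := cfin F
  d := cd F z
  aug := (Submodule.mkQ (z • (⊤ : Submodule R M))) ∘ₗ F.aug
  surj := by
    intro m
    obtain ⟨m, rfl⟩ := Submodule.mkQ_surjective _ m
    obtain ⟨v, rfl⟩ := F.surj m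
    exact ⟨v, rfl⟩
  exactZero := fun x => (Submodule.Quotient.mk_eq_zero _).trans
    ((core_aug F z x).trans (mem_range_c0 F z x).symm)
  exact := cone_exact F z hr
  minimal := cone_minimal F z hz

theorem cone_lin (F : GRes R M) (z : R) (hz : z ∈ maximalIdeal R) (hr : IsSMulRegular M z)
    (i : ℕ) (h1 : GLin F i) (h2 : GLin F (i + 1)) : GLin (cone F z hz hr) (i + 1) := by
  intro j x hx hdx
  change F.ι (i + 2) ⊕ F.ι (i + 1) → R at x
  have hz2 : ∀ (k : ℕ) (r : R), r ∈ maximalIdeal R ^ k → z * r ∈ maximalIdeal R ^ (k + 1) := by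
    intro k r hr
    rw [pow_succ']
    exact Ideal.mul_mem_mul hz hr
  have hx1 : ∀ a, pl x a ∈ maximalIdeal R ^ j := fun a => hx (Sum.inl a)
  have hx2 : ∀ b, pr x b ∈ maximalIdeal R ^ j := fun b => hx (Sum.inr b)
  have hd1 : ∀ a, (F.d (i + 1) (pl x) + z • pr x) a ∈ maximalIdeal R ^ (j + 2) :=
    fun a => hdx (Sum.inl a)
  have hd2 : ∀ b, F.d i (pr x) b ∈ maximalIdeal R ^ (j + 2) := fun b => by
    have := hdx (Sum.inr b)
    exact (Ideal.neg_mem_iff _).1 this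
  obtain ⟨u, hu, hu2⟩ := h1 j (pr x) hx2 hd2
  obtain ⟨v, hv, hv2⟩ := h2 j (pl x + z • u) (fun a => by
      refine Ideal.add_mem _ (hx1 a) ?_
      exact Ideal.pow_le_pow_right (by omega) (hz2 _ _ (hu a))) (fun a => by
      have e : F.d (i + 1) (pl x + z • u) a =
          (F.d (i + 1) (pl x) + z • pr x) a - z * (pr x a - F.d (i + 1) u a) := by
        rw [map_add, map_smul, Pi.add_apply, Pi.add_apply, Pi.smul_apply, Pi.smul_apply,
          smul_eq_mul, smul_eq_mul]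
        ring
      rw [e]
      exact Ideal.sub_mem _ (hd1 a) (hz2 _ _ (hu2 a)))
  refine ⟨(Sum.elim v (-u) : F.ι (i + 3) ⊕ F.ι (i + 2) → R), ?_, ?_⟩
  · intro c
    change F.ι (i + 3) ⊕ F.ι (i + 2) at c
    rcases c with a | b
    · exact hv a
    · exact (Ideal.neg_mem_iff _).2 (hu b)
  · intro c
    change F.ι (i + 2) ⊕ F.ι (i + 1) at c
    rcases c with a | b
    · have e : x (Sum.inl a) - (F.d (i + 2) v + z • (-u)) a =
          (pl x + z • u) a - F.d (i + 2) v a := by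
        rw [Pi.add_apply, Pi.add_apply, Pi.smul_apply, Pi.smul_apply, Pi.neg_apply, smul_eq_mul,
          smul_eq_mul]
        show x (Sum.inl a) - (F.d (i + 2) v a + z * -u a) = x (Sum.inl a) + z * u a - F.d (i + 2) v a
        ring
      show x (Sum.inl a) - (F.d (i + 2) v + z • (-u)) a ∈ _
      rw [e]
      exact hv2 a
    · have e : x (Sum.inr b) - (-(F.d (i + 1) (-u))) b = pr x b - F.d (i + 1) u b := by
        rw [map_neg, neg_neg]
        rfl
      show x (Sum.inr b) - (-(F.d (i + 1) (-u))) b ∈ _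
      rw [e]
      exact hu2 b

end Pool.Agent.H72.LD.Cone
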