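import Pool.Agent.H72.LD.Cone2

/-!
# The criterion with a regular sequence
-/

set_option autoImplicit false

namespace Pool.Agent.H72.LD.Cone

open IsLocalRing Finset RingTheory.Sequence
open scoped Pointwise

variable {R : Type} [CommRing R] [IsLocalRing R]

theorem iter (L : List R) : ∀ (M : Type) [AddCommGroup M] [Module R M] (F : GRes R M) (t : ℕ)
    (a : M), (∀ z ∈ L, z ∈ maximalIdeal R) → IsWeaklyRegular M L →
    (∀ r ∈ maximalIdeal R, r • a ∈ (Ideal.ofList L • ⊤ : Submodule R M)) →
    a ∉ (maximalIdeal R • ⊤ : Submodule R M) → (∀ i, t ≤ i → GLin F i) →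
    ∀ (G : GRes R (ResidueField R)) (i : ℕ), t + L.length ≤ i → GLin G i := by
  induction L with
  | nil =>
    intro M _ _ F t a _ _ ha hna h G i hi
    refine summandG a (fun r hr => ?_) hna F G i (h i (by simpa using hi))
    have := ha r hr
    rwa [Ideal.ofList_nil, Submodule.bot_smul, Submodule.mem_bot] at this
  | cons z L ih =>
    intro M _ _ F t a hL hreg ha hna h G i hi
    rw [isWeaklyRegular_cons_iff] at hreg
    have hz : z ∈ maximalIdeal R := hL z (by simp)
    refine ih (QuotSMulTop z M) (cone F z hz hreg.1) (t + 1)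
      (Submodule.mkQ (z • (⊤ : Submodule R M)) a)
      (fun y hy => hL y (List.mem_cons_of_mem _ hy)) hreg.2 ?_ ?_ ?_ G i
      (by rw [List.length_cons] at hi; omega)
    · intro r hr
      have h1 := ha r hr
      rw [Ideal.ofList_cons_smul] at h1
      obtain ⟨b, hb, c, hc, hbc⟩ := Submodule.mem_sup.1 h1
      have e : r • (Submodule.mkQ (z • (⊤ : Submodule R M)) a) =
          Submodule.mkQ (z • (⊤ : Submodule R M)) c := by
        rw [← map_smul, ← hbc, map_add]
        have : Submodule.mkQ (z • (⊤ : Submodule R M)) b = 0 :=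
          (Submodule.Quotient.mk_eq_zero _).2 hb
        rw [this, zero_add]
      rw [e]
      have h2 := Submodule.mem_map_of_mem (f := Submodule.mkQ (z • (⊤ : Submodule R M))) hc
      rw [Submodule.map_smul''] at h2
      exact Submodule.smul_mono le_rfl le_top h2
    · intro hmem
      apply hna
      have e : (maximalIdeal R • ⊤ : Submodule R (QuotSMulTop z M)) =
          (maximalIdeal R • ⊤ : Submodule R M).map (Submodule.mkQ (z • (⊤ : Submodule R M))) := by
        rw [Submodule.map_smul'', Submodule.map_top, Submodule.range_mkQ]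
      rw [e] at hmem
      obtain ⟨b, hb, hba⟩ := hmem
      have h1 : b - a ∈ z • (⊤ : Submodule R M) := (Submodule.Quotient.eq _).1 hba
      have h2 : b - a ∈ (maximalIdeal R • ⊤ : Submodule R M) := by
        obtain ⟨m, -, hm⟩ := (Submodule.mem_smul_pointwise_iff_exists _ _ _).1 h1
        rw [← hm]
        exact Submodule.smul_mem_smul hz trivial
      have h3 := Submodule.sub_mem _ hb h2
      rwa [sub_sub_cancel] at h3
    · intro i' hi'
      obtain ⟨i'', rfl⟩ : ∃ i'', i' = i'' + 1 := ⟨i' - 1, by omega⟩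
      exact cone_lin F z hz hreg.1 i'' (h i'' (by omega)) (h (i'' + 1) (by omega))

/-- if `a ∉ m^[q]` is multiplied by `m^[q]` into `(z_1^q, …, z_t^q)`, `z` a regular sequence, then
`ld k ≤ ld φ^e R + t` -/
theorem pushforward_case [IsNoetherianRing R] {M : Type} [AddCommGroup M] [Module R M]
    (p e : ℕ) (hp : p.Prime) [CharP R p] (hM : IsPushforward p e R M)
    (L : List R) (hL : ∀ z ∈ L, z ∈ maximalIdeal R) (hreg : IsWeaklyRegular R L) (a : R)
    (ha : ∀ r ∈ maximalIdeal R, r ^ p ^ e * a ∈ Ideal.ofList (L.map (· ^ p ^ e)))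
    (hna : a ∉ Ideal.span ((fun r : R => r ^ p ^ e) '' (maximalIdeal R : Set R)))
    (F : MinRes R M) (t : ℕ) (ht : LdLE F t) (G : MinRes R (ResidueField R)) :
    LdLE G (t + L.length) := by
  obtain ⟨ψ, hψ⟩ := hM
  have hec : ExpChar R p := ExpChar.prime hp
  have hpow := pow_reg (p ^ e) (pow_ne_zero _ hp.ne_zero) L hL hreg
  have hMreg : IsWeaklyRegular M L :=
    (AddEquiv.isWeaklyRegular_congr (e := ψ) (as := L) (bs := L.map (· ^ p ^ e))
      (List.forall₂_map_right_iff.mpr (List.forall₂_same.mpr fun r _ x => hψ r x))).2 hpow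
  have hmap : Ideal.ofList (L.map (· ^ p ^ e)) =
      (Ideal.ofList L).map (iterateFrobenius R p e) := by
    rw [Ideal.map_ofList]
    congr 1
  have key : ∀ x ∈ (Ideal.ofList L).map (iterateFrobenius R p e), ∀ c : R,
      ψ.symm (c * x) ∈ (Ideal.ofList L • ⊤ : Submodule R M) := by
    intro x hx
    refine Submodule.span_induction (p := fun x _ => ∀ c : R,
      ψ.symm (c * x) ∈ (Ideal.ofList L • ⊤ : Submodule R M)) ?_ ?_ ?_ ?_ hx
    · rintro _ ⟨l, hl, rfl⟩ c
      have e1 : ψ.symm (c * iterateFrobenius R p e l) = l • ψ.symm c := by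
        apply ψ.injective
        rw [AddEquiv.apply_symm_apply, hψ, AddEquiv.apply_symm_apply, iterateFrobenius_def,
          mul_comm]
      rw [e1]
      exact Submodule.smul_mem_smul hl trivial
    · intro c
      rw [mul_zero, map_zero]
      exact Submodule.zero_mem _
    · intro x y _ _ hx hy c
      rw [mul_add, map_add]
      exact Submodule.add_mem _ (hx c) (hy c)
    · intro r x _ hx c
      rw [smul_eq_mul, ← mul_assoc]
      exact hx (c * r)
  intro i hi
  refine iter L M (ofMin F) t (ψ.symm a) hL hMreg (fun r hr => ?_) (fun hmem => hna ?_)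
    (fun i hi => ht i hi) (ofMin G) i hi
  · have h1 := ha r hr
    rw [hmap] at h1
    have h2 := key _ h1 1
    rw [one_mul] at h2
    have e1 : r • ψ.symm a = ψ.symm (r ^ p ^ e * a) := by
      apply ψ.injective
      rw [AddEquiv.apply_symm_apply, hψ, AddEquiv.apply_symm_apply]
    rw [e1]
    exact h2
  · have h3 : ∀ x ∈ (maximalIdeal R • ⊤ : Submodule R M),
        ψ x ∈ Ideal.span ((fun r : R => r ^ p ^ e) '' (maximalIdeal R : Set R)) := by
      intro x hx
      refine Submodule.smul_induction_on hx (fun r hr n _ => ?_) (fun x y hx hy => ?_)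
      · rw [hψ]
        exact Ideal.mul_mem_right _ _ (Ideal.subset_span ⟨r, hr, rfl⟩)
      · rw [map_add]
        exact Ideal.add_mem _ hx hy
    have h4 := h3 _ hmem
    rwa [AddEquiv.apply_symm_apply] at h4

end Pool.Agent.H72.LD.Cone
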