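import Pool.Agent.H72.LD.Cone3

/-!
# One regular element: the reduction number
-/

set_option autoImplicit false

namespace Pool.Agent.H72.LD.Cone

open IsLocalRing Finset RingTheory.Sequence

variable {R : Type} [CommRing R] [IsLocalRing R]

theorem pow_le_red (z : R) (r : ℕ)
    (h : maximalIdeal R ^ (r + 1) ≤ Ideal.span {z} * maximalIdeal R ^ r) (i : ℕ) :
    maximalIdeal R ^ (r + i) ≤ Ideal.span {z ^ i} * maximalIdeal R ^ r := by
  induction i with
  | zero => simp
  | succ i ih =>
    calc maximalIdeal R ^ (r + (i + 1)) = maximalIdeal R * maximalIdeal R ^ (r + i) := by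
          rw [← add_assoc, pow_succ']
      _ ≤ maximalIdeal R * (Ideal.span {z ^ i} * maximalIdeal R ^ r) := Ideal.mul_mono_right ih
      _ = Ideal.span {z ^ i} * maximalIdeal R ^ (r + 1) := by
          rw [pow_succ']
          ac_rfl
      _ ≤ Ideal.span {z ^ i} * (Ideal.span {z} * maximalIdeal R ^ r) := Ideal.mul_mono_right h
      _ = Ideal.span {z ^ (i + 1)} * maximalIdeal R ^ r := by
          rw [← mul_assoc, Ideal.span_singleton_mul_span_singleton, ← pow_succ]

theorem exists_red [IsNoetherianRing R] (p e : ℕ) (z : R) (hz : z ∈ maximalIdeal R)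
    (hr : IsWeaklyRegular R [z]) (r : ℕ)
    (h : maximalIdeal R ^ (r + 1) ≤ Ideal.span {z} * maximalIdeal R ^ r) (hrq : r < p ^ e) :
    ∃ a : R, (∀ x ∈ maximalIdeal R, x ^ p ^ e * a ∈ Ideal.ofList ([z].map (· ^ p ^ e))) ∧
      a ∉ Ideal.span ((fun x : R => x ^ p ^ e) '' (maximalIdeal R : Set R)) := by
  have hsub : Ideal.span ((fun r : R => r ^ p ^ e) '' (maximalIdeal R : Set R)) ≤
      maximalIdeal R ^ p ^ e := by
    refine Ideal.span_le.2 ?_
    rintro _ ⟨r, hr, rfl⟩
    exact Ideal.pow_mem_pow hr _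
  have hnot : ¬ (maximalIdeal R ^ r ≤
      Ideal.span ((fun r : R => r ^ p ^ e) '' (maximalIdeal R : Set R))) := by
    intro hcon
    have h3 : maximalIdeal R ^ r ≤ maximalIdeal R • maximalIdeal R ^ r := by
      rw [smul_eq_mul, ← pow_succ']
      exact (hcon.trans hsub).trans (Ideal.pow_le_pow_right hrq)
    have h4 : maximalIdeal R ^ r = ⊥ :=
      Submodule.eq_bot_of_le_smul_of_le_jacobson_bot _ _ (IsNoetherian.noetherian _) h3
        (by rw [jacobson_eq_maximalIdeal _ bot_ne_top])
    have h5 : z ^ r = 0 := by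
      have := Ideal.pow_mem_pow hz r
      rwa [h4, Ideal.mem_bot] at this
    have h6 : IsSMulRegular R z := (isWeaklyRegular_singleton_iff R z).1 hr
    have h7 := h6.pow r
    rw [h5] at h7
    have h8 : (0 : R) • (1 : R) = (0 : R) • (0 : R) := by simp
    exact one_ne_zero (h7 h8)
  obtain ⟨a, ha, hna⟩ := SetLike.not_le_iff_exists.1 hnot
  refine ⟨a, fun x hx => ?_, hna⟩
  have h1 : x ^ p ^ e * a ∈ maximalIdeal R ^ (r + p ^ e) := by
    rw [add_comm, pow_add]
    exact Ideal.mul_mem_mul (Ideal.pow_mem_pow hx _) ha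
  have h2 := Ideal.mul_le_left (pow_le_red z r h (p ^ e) h1)
  rw [List.map_singleton, Ideal.ofList_singleton]
  exact h2

end Pool.Agent.H72.LD.Cone
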