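import Mathlib

/-!
# Linearity defect: definitions

Minimal free resolutions by finitely generated free modules, vanishing of the homology of the linear
part, the pushforward of a ring along a power of the Frobenius.
-/

set_option autoImplicit false

namespace Pool.Agent.H72.LD

open IsLocalRing

/-- A minimal free resolution of `M` over the local ring `R`: `F i = R ^ (rank i)`, the maps
`d i : F (i + 1) → F i` have entries in the maximal ideal, and
`... → F 1 → F 0 → M → 0` is exact. -/
structure MinRes (R : Type) [CommRing R] [IsLocalRing R] (M : Type) [AddCommGroup M]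
    [Module R M] where
  /-- the rank of the free module `F i` -/
  rank : ℕ → ℕ
  /-- the differential -/
  d : (i : ℕ) → (Fin (rank (i + 1)) → R) →ₗ[R] (Fin (rank i) → R)
  /-- the augmentation -/
  aug : (Fin (rank 0) → R) →ₗ[R] M
  /-- the augmentation is onto -/
  surj : Function.Surjective aug
  /-- exactness at `F 0` -/
  exactZero : ∀ x, aug x = 0 ↔ x ∈ LinearMap.range (d 0)
  /-- exactness at `F (i + 1)` -/
  exact : ∀ i x, d i x = 0 ↔ x ∈ LinearMap.range (d (i + 1))
  /-- minimality -/
  minimal : ∀ i x c, d i x c ∈ maximalIdeal R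

/-- `H_(i+1)` of the linear part of `F` is zero: if `x` is in `m ^ j F (i + 1)` and `d x` is in
`m ^ (j + 2) F i`, then `x - d y` is in `m ^ (j + 1) F (i + 1)` for some `y` in
`m ^ (j - 1) F (i + 2)` (`m ^ (-1) = R`). -/
def LinExact {R : Type} [CommRing R] [IsLocalRing R] {M : Type} [AddCommGroup M] [Module R M]
    (F : MinRes R M) (i : ℕ) : Prop :=
  ∀ (j : ℕ) (x : Fin (F.rank (i + 1)) → R), (∀ c, x c ∈ maximalIdeal R ^ j) →
    (∀ c, F.d i x c ∈ maximalIdeal R ^ (j + 2)) →
    ∃ y : Fin (F.rank (i + 2)) → R, (∀ c, y c ∈ maximalIdeal R ^ (j - 1)) ∧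
      ∀ c, x c - F.d (i + 1) y c ∈ maximalIdeal R ^ (j + 1)

/-- the linearity defect is at most `t`: `H_i` of the linear part is zero for all `i > t` -/
def LdLE {R : Type} [CommRing R] [IsLocalRing R] {M : Type} [AddCommGroup M] [Module R M]
    (F : MinRes R M) (t : ℕ) : Prop :=
  ∀ i, t ≤ i → LinExact F i

/-- `M` is `R` regarded as a module through the `e`-th power of the Frobenius `a ↦ a ^ p` -/
def IsPushforward (p e : ℕ) (R : Type) [CommRing R] (M : Type) [AddCommGroup M] [Module R M] :
    Prop :=
  ∃ ψ : M ≃+ R, ∀ (r : R) (x : M), ψ (r • x) = r ^ p ^ e * ψ x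

end Pool.Agent.H72.LD
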