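import Pool.Agent.H72.LD.Reg

/-!
# A local ring which is free over itself through a power of the Frobenius is regular
-/

set_option autoImplicit false

namespace Pool.Agent.H72.LD

open IsLocalRing RingTheory.Sequence Finset

variable {R : Type} [CommRing R]

/-- Lech's independence -/
def Indep {n : ℕ} (f : Fin n → R) : Prop :=
  ∀ c : Fin n → R, ∑ i, c i * f i = 0 → ∀ i, c i ∈ Ideal.span (Set.range f)

theorem indep_update {n : ℕ} (f : Fin n → R) (k : Fin n) (g h : R) (hf : Indep f)
    (hk : f k = g * h) : Indep (Function.update f k g) := by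
  classical
  set f' := Function.update f k g with hf'
  have fk : f' k = g := Function.update_self k g f
  have fne : ∀ i, i ≠ k → f' i = f i := fun i hi => Function.update_of_ne hi g f
  have hgm : g ∈ Ideal.span (Set.range f') := Ideal.subset_span ⟨k, fk⟩
  have hle : Ideal.span (Set.range f) ≤ Ideal.span (Set.range f') := by
    refine Ideal.span_le.2 ?_
    rintro _ ⟨i, rfl⟩
    by_cases hi : i = k
    · subst hi
      show f i ∈ _
      rw [hk]
      exact Ideal.mul_mem_right _ _ hgm
    · exact Ideal.subset_span ⟨i, fne i hi⟩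
  intro c hc
  have hsplit : ∀ (a : Fin n → R) (φ : Fin n → R), ∑ i, a i * φ i =
      a k * φ k + ∑ i ∈ univ.erase k, a i * φ i := fun a φ =>
    (Finset.add_sum_erase univ (fun i => a i * φ i) (mem_univ k)).symm
  have hrest : ∀ a : Fin n → R, ∑ i ∈ univ.erase k, a i * f' i =
      ∑ i ∈ univ.erase k, a i * f i := fun a =>
    Finset.sum_congr rfl fun i hi => by rw [fne i (Finset.ne_of_mem_erase hi)]
  have h1 := hf (fun i => if i = k then c k else c i * h) (by
    rw [hsplit]
    rw [hsplit, hrest, fk] at hc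
    rw [if_pos rfl, hk]
    have : ∑ i ∈ univ.erase k, (if i = k then c k else c i * h) * f i =
        h * ∑ i ∈ univ.erase k, c i * f i := by
      rw [Finset.mul_sum]
      refine Finset.sum_congr rfl fun i hi => ?_
      rw [if_neg (Finset.ne_of_mem_erase hi)]
      ring
    rw [this]
    have e : c k * (g * h) + h * ∑ i ∈ univ.erase k, c i * f i =
        h * (c k * g + ∑ i ∈ univ.erase k, c i * f i) := by ring
    rw [e, hc, mul_zero]) k
  rw [if_pos rfl] at h1
  obtain ⟨u, hu⟩ := Ideal.mem_span_range_iff_exists_fun.1 h1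
  have h2 := hf (fun i => u i * g + if i = k then 0 else c i) (by
    rw [hsplit, hrest, fk, ← hu] at hc
    simp only [add_mul, Finset.sum_add_distrib]
    have e1 : ∑ i, (if i = k then 0 else c i) * f i = ∑ i ∈ univ.erase k, c i * f i := by
      rw [hsplit, if_pos rfl, zero_mul, zero_add]
      refine Finset.sum_congr rfl fun i hi => ?_
      rw [if_neg (Finset.ne_of_mem_erase hi)]
    have e2 : ∑ i, u i * g * f i = (∑ i, u i * f i) * g := by
      rw [Finset.sum_mul]
      exact Finset.sum_congr rfl fun i _ => by ring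
    rw [e1, e2]
    exact hc)
  intro i
  by_cases hi : i = k
  · rw [hi]; exact hle h1
  · have h3 := hle (h2 i)
    rw [if_neg hi] at h3
    have h4 := Ideal.sub_mem _ h3 (Ideal.mul_mem_left _ (u i) hgm)
    rwa [add_sub_cancel_left] at h4

theorem indep_pow {n : ℕ} (x : Fin n → R) (N : ℕ) (hf : Indep fun i => x i ^ N)
    (a : Fin n → ℕ) (ha : ∀ i, a i ≤ N) : Indep fun i => x i ^ a i := by
  classical
  have key : ∀ S : Finset (Fin n), Indep fun i => if i ∈ S then x i ^ a i else x i ^ N := by
    intro S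
    induction S using Finset.induction_on with
    | empty => simpa using hf
    | insert k S hk ih =>
      have := indep_update _ k (x k ^ a k) (x k ^ (N - a k)) ih (by
        rw [if_neg hk, ← pow_add, Nat.add_sub_cancel' (ha k)])
      convert this using 1
      funext i
      by_cases hi : i = k
      · subst hi; simp
      · rw [Function.update_of_ne hi]
        simp [hi]
  simpa using key univ

variable [IsLocalRing R]

theorem krull [IsNoetherianRing R] (I : Ideal R) (c : R) (h : ∀ b, c ∈ I ⊔ maximalIdeal R ^ b) :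
    c ∈ I := by
  have h1 := Ideal.iInf_pow_smul_eq_bot_of_isLocalRing (R := R) (M := R ⧸ I) (maximalIdeal R)
    (maximalIdeal.isMaximal R).ne_top
  have h2 : (Submodule.Quotient.mk c : R ⧸ I) ∈
      (⨅ i : ℕ, maximalIdeal R ^ i • ⊤ : Submodule R (R ⧸ I)) := by
    rw [Submodule.mem_iInf]
    intro b
    obtain ⟨u, hu, v, hv, huv⟩ := Submodule.mem_sup.1 (h b)
    have e : (Submodule.Quotient.mk c : R ⧸ I) = v • (Submodule.Quotient.mk 1 : R ⧸ I) := by
      rw [← Submodule.Quotient.mk_smul, Submodule.Quotient.eq]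
      rw [← huv, smul_eq_mul, mul_one, add_sub_cancel_right]
      exact hu
    rw [e]
    exact Submodule.smul_mem_smul hv trivial
  rw [h1, Submodule.mem_bot, Submodule.Quotient.mk_eq_zero] at h2
  exact h2

/-- the ideal of the first `i` generators -/
def first {n : ℕ} (x : Fin n → R) (i : Fin n) : Ideal R :=
  Ideal.span (Set.range fun j => if j < i then x j else 0)

omit [IsLocalRing R] in
theorem first_mem {n : ℕ} (x : Fin n → R) (i j : Fin n) (h : j < i) : x j ∈ first x i :=
  Ideal.subset_span ⟨j, if_pos h⟩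

theorem regular_of_indep [IsNoetherianRing R] {n : ℕ} (x : Fin n → R)
    (hx : ∀ i, x i ∈ maximalIdeal R)
    (hind : ∀ b, ∃ N, b ≤ N ∧ Indep fun i => x i ^ N) (i : Fin n) (c : R)
    (hc : x i * c ∈ first x i) : c ∈ first x i := by
  classical
  apply krull
  intro b
  obtain ⟨N, hN, hI⟩ := hind (b + 1)
  have h1 := indep_pow x N hI (fun j => if j < i then 1 else b + 1) (fun j => by
    split_ifs <;> omega)
  have hc2 : x i ^ (b + 1) * c ∈ first x i := by
    rw [pow_succ, mul_assoc]
    exact Ideal.mul_mem_left _ _ hc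
  obtain ⟨u, hu⟩ := Ideal.mem_span_range_iff_exists_fun.1 hc2
  have hu2 : ∑ j ∈ univ.erase i, (u j * if j < i then x j else 0) = c * x i ^ (b + 1) := by
    rw [← Finset.add_sum_erase univ (fun j => u j * if j < i then x j else 0) (mem_univ i)] at hu
    simp only [lt_irrefl, if_false, mul_zero, zero_add] at hu
    rw [hu, mul_comm]
  have h2 := h1 (fun j => if j = i then c else if j < i then - u j else 0) (by
    show ∑ j, (if j = i then c else if j < i then - u j else 0) *
      x j ^ (if j < i then 1 else b + 1) = 0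
    rw [← Finset.add_sum_erase univ (fun j => (if j = i then c else if j < i then - u j else 0) *
      x j ^ (if j < i then 1 else b + 1)) (mem_univ i)]
    simp only [lt_irrefl, if_false, if_true]
    rw [← hu2, ← Finset.sum_add_distrib]
    refine Finset.sum_eq_zero fun j hj => ?_
    rw [if_neg (Finset.ne_of_mem_erase hj)]
    by_cases hji : j < i
    · rw [if_pos hji, if_pos hji, if_pos hji, pow_one]; ring
    · rw [if_neg hji, if_neg hji]; ring) i
  rw [if_pos rfl] at h2
  refine (Ideal.span_le.2 ?_ : _ ≤ _) h2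
  rintro _ ⟨j, rfl⟩
  show x j ^ (if j < i then 1 else b + 1) ∈ _
  by_cases hji : j < i
  · rw [if_pos hji, pow_one]
    exact Ideal.mem_sup_left (first_mem x i j hji)
  · rw [if_neg hji]
    exact Ideal.mem_sup_right (Ideal.pow_le_pow_right (Nat.le_succ b)
      (Ideal.pow_mem_pow (hx j) _))

theorem ofList_take {n : ℕ} (x : Fin n → R) (i : Fin n) :
    Ideal.ofList ((List.ofFn x).take i) = first x i := by
  apply le_antisymm
  · refine Ideal.span_le.2 ?_
    intro r hr
    have hr' : r ∈ (List.ofFn x).take i := hr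
    rw [List.mem_take_iff_getElem] at hr'
    obtain ⟨j, hj, rfl⟩ := hr'
    have hj2 : j < (i : ℕ) := by simpa using hj
    rw [List.getElem_ofFn]
    exact first_mem x i ⟨j, hj2.trans i.isLt⟩ hj2
  · refine Ideal.span_le.2 ?_
    rintro _ ⟨j, rfl⟩
    show (if j < i then x j else 0) ∈ _
    by_cases hji : j < i
    · rw [if_pos hji]
      refine Ideal.subset_span ?_
      show x j ∈ (List.ofFn x).take i
      rw [List.mem_take_iff_getElem]
      refine ⟨j, ?_, ?_⟩
      · have h1 : (j : ℕ) < i := hji
        have h2 : (j : ℕ) < n := j.isLt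
        simpa using h1
      · rw [List.getElem_ofFn]
    · rw [if_neg hji]
      exact Ideal.zero_mem _

theorem weak_of_indep [IsNoetherianRing R] {n : ℕ}
    (x : Fin n → R) (hxm : ∀ i, x i ∈ maximalIdeal R)
    (hind : ∀ b, ∃ N, b ≤ N ∧ Indep fun i => x i ^ N) : IsWeaklyRegular R (List.ofFn x) := by
  constructor
  intro i hi
  have hi' : i < n := by simpa using hi
  rw [smul_reg_iff]
  intro z hz
  have e := ofList_take x ⟨i, hi'⟩
  change Ideal.ofList ((List.ofFn x).take i) = _ at e
  rw [e] at hz ⊢
  rw [List.getElem_ofFn] at hz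
  exact regular_of_indep x hxm hind ⟨i, hi'⟩ z hz

theorem isRegular_of_weak [IsNoetherianRing R] {n : ℕ} (hn : (maximalIdeal R).spanFinrank = n)
    (x : Fin n → R) (hxm : ∀ i, x i ∈ maximalIdeal R)
    (hw : IsWeaklyRegular R (List.ofFn x)) : IsRegularLocalRing R := by
  have hr : IsRegular R (List.ofFn x) :=
    IsRegular.of_isWeaklyRegular_of_mem_maximalIdeal R (by
      intro r hr
      obtain ⟨i, rfl⟩ := List.mem_ofFn.1 hr
      exact hxm i) hw
  have hd := ringKrullDim_add_length_eq_ringKrullDim_of_isRegular (List.ofFn x) hr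
  rw [List.length_ofFn] at hd
  apply IsRegularLocalRing.of_spanFinrank_maximalIdeal_le
  rw [hn, ← hd]
  have hle : Ideal.ofList (List.ofFn x) ≤ maximalIdeal R := by
    refine Ideal.span_le.2 ?_
    intro r hr
    obtain ⟨i, rfl⟩ := List.mem_ofFn.1 hr
    exact hxm i
  have : Nontrivial (R ⧸ Ideal.ofList (List.ofFn x)) :=
    Ideal.Quotient.nontrivial_iff.2
      (fun h => (maximalIdeal.isMaximal R).ne_top (top_le_iff.1 (h ▸ hle)))
  have h0 : 0 ≤ ringKrullDim (R ⧸ Ideal.ofList (List.ofFn x)) := ringKrullDim_nonneg_of_nontrivial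
  calc (n : WithBot ℕ∞) = 0 + n := (zero_add _).symm
    _ ≤ _ := by gcongr

/-- the ring is free over itself through the Frobenius power -/
theorem indep_iterate (p e : ℕ) (hp : p.Prime) [CharP R p] {n m : ℕ} (x : Fin n → R)
    (h1 : ∀ c : Fin n → R, ∑ i, c i * x i = 0 → ∀ i, c i ∈ Ideal.span (Set.range x))
    (b : Fin m → R) (hs : ∀ u, ∃ v : Fin m → R, u = ∑ j, v j ^ p ^ e * b j)
    (hi : ∀ v : Fin m → R, ∑ j, v j ^ p ^ e * b j = 0 → ∀ j, v j = 0) (r : ℕ) :
    Indep fun i => x i ^ (p ^ e) ^ r := by
  haveI : ExpChar R p := ExpChar.prime hp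
  induction r with
  | zero => simpa [Indep] using h1
  | succ r ih =>
    intro c hc
    choose a ha using fun i => hs (c i)
    have h2 : ∀ j, ∑ i, a i j * x i ^ (p ^ e) ^ r = 0 := by
      apply hi
      have e1 : ∀ j, (∑ i, a i j * x i ^ (p ^ e) ^ r) ^ p ^ e =
          ∑ i, a i j ^ p ^ e * x i ^ (p ^ e) ^ (r + 1) := by
        intro j
        rw [← iterateFrobenius_def, map_sum]
        refine Finset.sum_congr rfl fun i _ => ?_
        rw [map_mul, iterateFrobenius_def, iterateFrobenius_def, ← pow_mul, ← pow_succ]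
      simp only [e1, Finset.sum_mul]
      rw [Finset.sum_comm, ← hc]
      refine Finset.sum_congr rfl fun i _ => ?_
      conv_rhs => rw [ha i]
      rw [Finset.sum_mul]
      exact Finset.sum_congr rfl fun j _ => by ring
    intro i
    rw [ha i]
    refine Ideal.sum_mem _ fun j _ => Ideal.mul_mem_right _ _ ?_
    have h3 := ih _ (h2 j) i
    have h4 := Ideal.mem_map_of_mem (iterateFrobenius R p e) h3
    rw [Ideal.map_span] at h4
    rw [iterateFrobenius_def] at h4
    refine (Ideal.span_le.2 ?_ : _ ≤ _) h4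
    rintro _ ⟨_, ⟨l, rfl⟩, rfl⟩
    refine Ideal.subset_span ⟨l, ?_⟩
    show x l ^ (p ^ e) ^ (r + 1) = iterateFrobenius R p e (x l ^ (p ^ e) ^ r)
    rw [iterateFrobenius_def, pow_succ (p ^ e) r, pow_mul]

end Pool.Agent.H72.LD
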