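import Pool.Agent.H72.LD.ModJ
import Pool.Agent.H72.LD.Kunz

/-!
# Pushforwards of finite linearity defect over rings without quadratic relations
-/

set_option autoImplicit false

namespace Pool.Agent.H72.LD

open IsLocalRing RingTheory.Sequence Finset

variable {R : Type} [CommRing R] [IsLocalRing R] [IsNoetherianRing R]
  {M : Type} [AddCommGroup M] [Module R M]

/-- the maximal ideal is generated by a regular sequence -/
theorem exists_regular_gens
    (h : (maximalIdeal R ^ 2).spanFinrank =
      (maximalIdeal R).spanFinrank * ((maximalIdeal R).spanFinrank + 1) / 2)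
    (p e : ℕ) (hp : p.Prime) [CharP R p] (he : 1 ≤ e) (hM : IsPushforward p e R M)
    (F : MinRes R M) (t : ℕ) (ht : LdLE F t) :
    ∃ x : Fin (maximalIdeal R).spanFinrank → R, Ideal.span (Set.range x) = maximalIdeal R ∧
      IsWeaklyRegular R (List.ofFn x) := by
  classical
  have h1 : F.rank 1 = 0 := rank_one p e hp hM F (t + (maximalIdeal R).spanFinrank)
    (rank_zero h F t ht _ (Nat.lt_succ_self _))
  obtain ⟨ψ, hψ⟩ := hM
  obtain ⟨x, hx, hq⟩ := exists_gens R rfl h
  have hxm : ∀ i, x i ∈ maximalIdeal R := fun i => by rw [← hx]; exact Ideal.subset_span ⟨i, rfl⟩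
  refine ⟨x, hx, weak_of_indep x hxm ?_⟩
  have hs : ∀ u, ∃ v : Fin (F.rank 0) → R, u = ∑ j, v j ^ p ^ e * ψ (F.aug (bv R j)) := by
    intro u
    obtain ⟨v, hv⟩ := F.surj (ψ.symm u)
    refine ⟨v, ?_⟩
    rw [← aug_eq p e ψ hψ, hv, AddEquiv.apply_symm_apply]
  have hi : ∀ v : Fin (F.rank 0) → R, ∑ j, v j ^ p ^ e * ψ (F.aug (bv R j)) = 0 →
      ∀ j, v j = 0 := by
    intro v hv
    rw [← aug_eq p e ψ hψ] at hv
    have h2 : F.aug v = 0 := ψ.injective (by rw [hv, map_zero])
    obtain ⟨y, hy⟩ := (F.exactZero v).1 h2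
    have hy0 : y = 0 := by
      funext l
      exact absurd l.isLt (by have h9 : F.rank (0 + 1) = 0 := h1; omega)
    rw [hy0, map_zero] at hy
    intro j
    rw [← hy]
    rfl
  have h2 : ∀ c : Fin (maximalIdeal R).spanFinrank → R, ∑ i, c i * x i = 0 →
      ∀ i, c i ∈ Ideal.span (Set.range x) := by
    intro c hc i
    rw [hx]
    have e1 := fold_sum (fun j l => if l = i then c j else 0) x
    have e2 : ∑ a, ∑ b, (if b = i then c a else 0) * (x a * x b) = 0 := by
      have e3 : ∀ a, ∑ b, (if b = i then c a else 0) * (x a * x b) = (c a * x a) * x i := by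
        intro a
        rw [Finset.sum_eq_single i]
        · rw [if_pos rfl]; ring
        · intro b _ hb; rw [if_neg hb, zero_mul]
        · intro hb; exact absurd (mem_univ i) hb
      simp only [e3]
      rw [← Finset.sum_mul, hc, zero_mul]
    have h3 := hq (fun a b => (if b = i then c a else 0) +
      if a < b then (if a = i then c b else 0) else 0) (by
        rw [e1, e2]; exact Ideal.zero_mem _) i i le_rfl
    simpa using h3
  intro b
  refine ⟨(p ^ e) ^ b, ?_, indep_iterate p e hp x h2 _ hs hi b⟩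
  refine (Nat.lt_pow_self ?_).le
  calc 1 < p := hp.one_lt
    _ = p ^ 1 := (pow_one p).symm
    _ ≤ p ^ e := Nat.pow_le_pow_right hp.pos he

theorem regular
    (h : (maximalIdeal R ^ 2).spanFinrank =
      (maximalIdeal R).spanFinrank * ((maximalIdeal R).spanFinrank + 1) / 2)
    (p e : ℕ) (hp : p.Prime) [CharP R p] (he : 1 ≤ e) (hM : IsPushforward p e R M)
    (F : MinRes R M) (t : ℕ) (ht : LdLE F t) : IsRegularLocalRing R := by
  obtain ⟨x, hx, hw⟩ := exists_regular_gens h p e hp he hM F t ht
  exact isRegular_of_weak rfl x (fun i => by rw [← hx]; exact Ideal.subset_span ⟨i, rfl⟩) hw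

theorem residue_ld
    (h : (maximalIdeal R ^ 2).spanFinrank =
      (maximalIdeal R).spanFinrank * ((maximalIdeal R).spanFinrank + 1) / 2)
    (p e : ℕ) (hp : p.Prime) [CharP R p] (he : 1 ≤ e) (hM : IsPushforward p e R M)
    (F : MinRes R M) (t : ℕ) (ht : LdLE F t) {N : Type} [AddCommGroup N] [Module R N]
    (G : MinRes R N) : LdLE G (maximalIdeal R).spanFinrank := by
  obtain ⟨x, hx, hw⟩ := exists_regular_gens h p e hp he hM F t ht
  intro i hi j z _ _
  have hL : Ideal.ofList (List.ofFn x) = maximalIdeal R := by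
    refine Eq.trans ?_ hx
    unfold Ideal.ofList
    congr 1
    ext r
    simp
  have h0 := rank_zero_of_regular G _ hw hL (i + 1) (by rw [List.length_ofFn]; omega)
  exact ⟨0, fun c => by simp, fun c => absurd c.isLt (by omega)⟩

end Pool.Agent.H72.LD
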