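import Pool.Agent.H72.LD.Quad

/-!
# Finite linearity defect over a ring without quadratic relations
-/

set_option autoImplicit false

namespace Pool.Agent.H72.LD

open IsLocalRing Finset

/-- the standard basis vector -/
def bv (R : Type) [CommRing R] {m : ℕ} (j : Fin m) : Fin m → R := fun l => if j = l then 1 else 0

theorem apply_eq {R : Type} [CommRing R] {m n : ℕ} (f : (Fin m → R) →ₗ[R] (Fin n → R))
    (v : Fin m → R) (c : Fin n) : f v c = ∑ j, v j * f (bv R j) c := by
  have := LinearMap.pi_apply_eq_sum_univ f v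
  rw [this, Finset.sum_apply]
  rfl

/-- words in anticommuting square zero elements -/
theorem mul_prod_zero {E : Type*} [Ring E] {n : ℕ} (X : Fin n → E) (hsq : ∀ a, X a * X a = 0)
    (hac : ∀ a b, X a * X b = -(X b * X a)) (a : Fin n) (L : List (Fin n)) (h : a ∈ L) :
    X a * (L.map X).prod = 0 := by
  induction L with
  | nil => simp at h
  | cons b L ih =>
    rw [List.map_cons, List.prod_cons]
    rcases List.mem_cons.1 h with h | h
    · rw [h, ← mul_assoc, hsq, zero_mul]
    · rw [← mul_assoc, hac, neg_mul, mul_assoc, ih h, mul_zero, neg_zero]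

theorem prod_zero {E : Type*} [Ring E] {n : ℕ} (X : Fin n → E) (hsq : ∀ a, X a * X a = 0)
    (hac : ∀ a b, X a * X b = -(X b * X a)) (L : List (Fin n)) (h : ¬ L.Nodup) :
    (L.map X).prod = 0 := by
  induction L with
  | nil => simp at h
  | cons b L ih =>
    rw [List.map_cons, List.prod_cons]
    rw [List.nodup_cons, not_and_or, not_not] at h
    rcases h with h | h
    · exact mul_prod_zero X hsq hac b L h
    · rw [ih h, mul_zero]

section

variable {R : Type} [CommRing R] [IsLocalRing R] {M : Type} [AddCommGroup M] [Module R M]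

/-- the action of the letter on the product of the reduced modules -/
noncomputable def act (F : MinRes R M)
    (B : (i : ℕ) → Fin (F.rank i) → Fin (F.rank (i + 1)) → R) :
    Module.End (ResidueField R) ((i : ℕ) → Fin (F.rank i) → ResidueField R) where
  toFun w := fun i c => ∑ j, residue R (B i c j) * w (i + 1) j
  map_add' w w' := by
    funext i c
    simp [mul_add, Finset.sum_add_distrib]
  map_smul' r w := by
    funext i c
    simp only [Pi.smul_apply, smul_eq_mul, RingHom.id_apply, Finset.mul_sum]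
    exact Finset.sum_congr rfl fun j _ => by ring

theorem act_apply (F : MinRes R M)
    (B : (i : ℕ) → Fin (F.rank i) → Fin (F.rank (i + 1)) → R)
    (w : (i : ℕ) → Fin (F.rank i) → ResidueField R) (i : ℕ) (c : Fin (F.rank i)) :
    act F B w i c = ∑ j, residue R (B i c j) * w (i + 1) j := rfl

theorem act_mul_apply (F : MinRes R M)
    (B C : (i : ℕ) → Fin (F.rank i) → Fin (F.rank (i + 1)) → R)
    (w : (i : ℕ) → Fin (F.rank i) → ResidueField R) (i : ℕ) (c : Fin (F.rank i)) :
    (act F B * act F C) w i c =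
      ∑ l, residue R (∑ j, B i c j * C (i + 1) j l) * w (i + 2) l := by
  rw [Module.End.mul_apply, act_apply]
  simp only [act_apply, Finset.mul_sum, map_sum, map_mul, Finset.sum_mul]
  rw [Finset.sum_comm]
  exact Finset.sum_congr rfl fun l _ => Finset.sum_congr rfl fun j _ => by ring

/-- folding the double sum over pairs -/
theorem fold_sum {n : ℕ} (q : Fin n → Fin n → R) (x : Fin n → R) :
    ∑ p ∈ univ.filter (fun p : Fin n × Fin n => p.1 ≤ p.2),
      (q p.1 p.2 + if p.1 < p.2 then q p.2 p.1 else 0) * (x p.1 * x p.2) =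
    ∑ a, ∑ b, q a b * (x a * x b) := by
  classical
  have h1 : ∑ a, ∑ b, q a b * (x a * x b) =
      ∑ p : Fin n × Fin n, q p.1 p.2 * (x p.1 * x p.2) :=
    (Fintype.sum_prod_type' (fun a b => q a b * (x a * x b))).symm
  rw [h1, ← Finset.sum_filter_add_sum_filter_not univ (fun p : Fin n × Fin n => p.1 ≤ p.2)]
  simp only [add_mul, Finset.sum_add_distrib]
  congr 1
  have h2 : ∑ p ∈ univ.filter (fun p : Fin n × Fin n => p.1 ≤ p.2),
      (if p.1 < p.2 then q p.2 p.1 else 0) * (x p.1 * x p.2) =
      ∑ p ∈ univ.filter (fun p : Fin n × Fin n => p.1 < p.2), q p.2 p.1 * (x p.1 * x p.2) := by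
    rw [Finset.sum_filter, Finset.sum_filter]
    refine Finset.sum_congr rfl fun p _ => ?_
    by_cases h : p.1 < p.2
    · rw [if_pos h.le, if_pos h, if_pos h]
    · rw [if_neg h, if_neg h, zero_mul]
      simp
  rw [h2]
  refine Finset.sum_nbij' (fun p => (p.2, p.1)) (fun p => (p.2, p.1)) ?_ ?_ ?_ ?_ ?_
  · intro p hp
    simp only [mem_filter, mem_univ, true_and, not_le] at hp ⊢
    exact hp
  · intro p hp
    simp only [mem_filter, mem_univ, true_and, not_le] at hp ⊢
    exact hp
  · intro p _; rfl
  · intro p _; rfl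
  · intro p _
    show q p.2 p.1 * (x p.1 * x p.2) = q p.2 p.1 * (x p.2 * x p.1)
    rw [mul_comm (x p.1)]

/-- the coefficients of the differential with respect to the generators `x` -/
theorem exists_coef (F : MinRes R M) {n : ℕ} (x : Fin n → R)
    (hx : Ideal.span (Set.range x) = maximalIdeal R) :
    ∃ A : Fin n → (i : ℕ) → Fin (F.rank i) → Fin (F.rank (i + 1)) → R,
      ∀ i c j, F.d i (bv R j) c = ∑ a, A a i c j * x a := by
  have h : ∀ i c j, ∃ f : Fin n → R, ∑ a, f a * x a = F.d i (bv R j) c := by
    intro i c j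
    have := F.minimal i (bv R j) c
    rw [← hx] at this
    exact Ideal.mem_span_range_iff_exists_fun.1 this
  choose f hf using h
  exact ⟨fun a i c j => f i c j a, fun i c j => (hf i c j).symm⟩

theorem comp_zero (F : MinRes R M) (i : ℕ) (v : Fin (F.rank (i + 2)) → R) :
    F.d i (F.d (i + 1) v) = 0 :=
  (F.exact i _).2 ⟨v, rfl⟩

/-- the relation from `d ∘ d = 0` -/
theorem quad_rel (F : MinRes R M) {n : ℕ} (x : Fin n → R)
    (A : Fin n → (i : ℕ) → Fin (F.rank i) → Fin (F.rank (i + 1)) → R)
    (hA : ∀ i c j, F.d i (bv R j) c = ∑ a, A a i c j * x a)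
    (i : ℕ) (c : Fin (F.rank i)) (l : Fin (F.rank (i + 2))) :
    ∑ a, ∑ b, (∑ j, A a i c j * A b (i + 1) j l) * (x a * x b) = 0 := by
  have h := congrFun (comp_zero F i (bv R l)) c
  rw [apply_eq] at h
  simp only [hA, Pi.zero_apply] at h
  rw [← h]
  simp only [Finset.sum_mul, Finset.mul_sum]
  have e1 : ∀ a : Fin n, ∑ b, ∑ j, A a i c j * A b (i + 1) j l * (x a * x b) =
      ∑ j, ∑ b, A a i c j * A b (i + 1) j l * (x a * x b) := fun a => Finset.sum_comm
  simp only [e1]
  rw [Finset.sum_comm]
  refine Finset.sum_congr rfl fun j _ => ?_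
  refine Finset.sum_congr rfl fun a _ => Finset.sum_congr rfl fun b _ => ?_
  ring

/-- squares vanish and letters anticommute -/
theorem relations (F : MinRes R M) {n : ℕ} (x : Fin n → R)
    (hq : ∀ c : Fin n → Fin n → R,
        ∑ p ∈ univ.filter (fun p : Fin n × Fin n => p.1 ≤ p.2), c p.1 p.2 * (x p.1 * x p.2) ∈
          maximalIdeal R ^ 3 → ∀ a b, a ≤ b → c a b ∈ maximalIdeal R)
    (A : Fin n → (i : ℕ) → Fin (F.rank i) → Fin (F.rank (i + 1)) → R)
    (hA : ∀ i c j, F.d i (bv R j) c = ∑ a, A a i c j * x a) :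
    (∀ a, act F (A a) * act F (A a) = 0) ∧
      ∀ a b, act F (A a) * act F (A b) = -(act F (A b) * act F (A a)) := by
  have key : ∀ (i : ℕ) (c : Fin (F.rank i)) (l : Fin (F.rank (i + 2))) (a b : Fin n), a ≤ b →
      ((∑ j, A a i c j * A b (i + 1) j l) +
        if a < b then (∑ j, A b i c j * A a (i + 1) j l) else 0) ∈ maximalIdeal R := by
    intro i c l
    refine hq (fun a b => (∑ j, A a i c j * A b (i + 1) j l) +
        if a < b then (∑ j, A b i c j * A a (i + 1) j l) else 0) ?_
    have := fold_sum (fun a b => ∑ j, A a i c j * A b (i + 1) j l) x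
    rw [quad_rel F x A hA] at this
    rw [this]
    exact Ideal.zero_mem _
  have k1 : ∀ (i : ℕ) (c : Fin (F.rank i)) (l : Fin (F.rank (i + 2))) (a : Fin n),
      residue R (∑ j, A a i c j * A a (i + 1) j l) = 0 := by
    intro i c l a
    have := key i c l a a le_rfl
    rw [if_neg (lt_irrefl a), add_zero] at this
    exact (residue_eq_zero_iff _).2 this
  have k2 : ∀ (i : ℕ) (c : Fin (F.rank i)) (l : Fin (F.rank (i + 2))) (a b : Fin n),
      residue R (∑ j, A a i c j * A b (i + 1) j l) =
        - residue R (∑ j, A b i c j * A a (i + 1) j l) := by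
    intro i c l a b
    rcases lt_trichotomy a b with h | h | h
    · have := key i c l a b h.le
      rw [if_pos h] at this
      have h2 := (residue_eq_zero_iff _).2 this
      rw [map_add] at h2
      exact eq_neg_of_add_eq_zero_left h2
    · subst h
      rw [k1, neg_zero]
    · have := key i c l b a h.le
      rw [if_pos h] at this
      have h2 := (residue_eq_zero_iff _).2 this
      rw [map_add] at h2
      exact eq_neg_of_add_eq_zero_right h2
  constructor
  · intro a
    refine LinearMap.ext fun w => funext fun i => funext fun c => ?_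
    rw [act_mul_apply]
    simp only [k1, zero_mul, Finset.sum_const_zero]
    rfl
  · intro a b
    refine LinearMap.ext fun w => funext fun i => funext fun c => ?_
    rw [act_mul_apply]
    have : (-(act F (A b) * act F (A a))) w i c = -((act F (A b) * act F (A a)) w i c) := rfl
    rw [this, act_mul_apply, ← Finset.sum_neg_distrib]
    refine Finset.sum_congr rfl fun l _ => ?_
    rw [k2 i c l a b, neg_mul]

/-- the linear part is injective in degree zero -/
theorem inj_step (F : MinRes R M) {n : ℕ} (x : Fin n → R)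
    (hx : Ideal.span (Set.range x) = maximalIdeal R)
    (A : Fin n → (i : ℕ) → Fin (F.rank i) → Fin (F.rank (i + 1)) → R)
    (hA : ∀ i c j, F.d i (bv R j) c = ∑ a, A a i c j * x a)
    (i : ℕ) (hi : LinExact F i) (w : (i : ℕ) → Fin (F.rank i) → ResidueField R)
    (hw : w (i + 1) ≠ 0) : ∃ a, act F (A a) w i ≠ 0 := by
  by_contra hcon
  push Not at hcon
  have hl : ∀ j, ∃ r : R, residue R r = w (i + 1) j := fun j => residue_surjective _
  choose v hv using hl
  have hd : ∀ c, F.d i v c ∈ maximalIdeal R ^ (0 + 2) := by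
    intro c
    have e1 : F.d i v c = ∑ a, (∑ j, A a i c j * v j) * x a := by
      rw [apply_eq]
      simp only [hA, Finset.sum_mul, Finset.mul_sum]
      rw [Finset.sum_comm]
      exact Finset.sum_congr rfl fun a _ => Finset.sum_congr rfl fun j _ => by ring
    rw [e1, zero_add, pow_two]
    refine Ideal.sum_mem _ fun a _ => Ideal.mul_mem_mul ?_ ?_
    · rw [← residue_eq_zero_iff, map_sum]
      have := congrFun (hcon a) c
      rw [act_apply] at this
      simpa [hv] using this
    · rw [← hx]
      exact Ideal.subset_span ⟨a, rfl⟩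
  obtain ⟨y, -, hy⟩ := hi 0 v (fun c => by simp) hd
  apply hw
  funext c
  rw [← hv c]
  have h1 := hy c
  rw [zero_add, pow_one] at h1
  have h2 := F.minimal (i + 1) y c
  have h3 := Ideal.add_mem _ h1 h2
  rw [sub_add_cancel] at h3
  exact (residue_eq_zero_iff _).2 h3

theorem chain (F : MinRes R M) {n : ℕ} (x : Fin n → R)
    (hx : Ideal.span (Set.range x) = maximalIdeal R)
    (A : Fin n → (i : ℕ) → Fin (F.rank i) → Fin (F.rank (i + 1)) → R)
    (hA : ∀ i c j, F.d i (bv R j) c = ∑ a, A a i c j * x a)
    (t : ℕ) (ht : LdLE F t) (i : ℕ) (hi : t ≤ i) (s : ℕ) :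
    ∀ w : (i : ℕ) → Fin (F.rank i) → ResidueField R, w (i + s) ≠ 0 →
      ∃ L : List (Fin n), L.length = s ∧ (L.map fun a => act F (A a)).prod w i ≠ 0 := by
  induction s with
  | zero => intro w hw; exact ⟨[], rfl, by simpa using hw⟩
  | succ s ih =>
    intro w hw
    obtain ⟨a, ha⟩ := inj_step F x hx A hA (i + s) (ht _ (by omega)) w hw
    obtain ⟨L, hL, h⟩ := ih _ ha
    refine ⟨L ++ [a], by simp [hL], ?_⟩
    rw [List.map_append, List.prod_append]
    simpa using h

theorem rank_zero [IsNoetherianRing R]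
    (h : (maximalIdeal R ^ 2).spanFinrank =
      (maximalIdeal R).spanFinrank * ((maximalIdeal R).spanFinrank + 1) / 2)
    (F : MinRes R M) (t : ℕ) (ht : LdLE F t) (i : ℕ)
    (hi : t + (maximalIdeal R).spanFinrank < i) : F.rank i = 0 := by
  obtain ⟨x, hx, hq⟩ := exists_gens R rfl h
  obtain ⟨A, hA⟩ := exists_coef F x hx
  obtain ⟨hsq, hac⟩ := relations F x hq A hA
  by_contra hr
  obtain ⟨i', rfl⟩ : ∃ i', i = i' + ((maximalIdeal R).spanFinrank + 1) :=
    ⟨i - ((maximalIdeal R).spanFinrank + 1), by omega⟩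
  obtain ⟨L, hL, hne⟩ := chain F x hx A hA t ht i' (by omega) _ (fun _ _ => 1) (by
    intro h0
    have := congrFun h0 ⟨0, Nat.pos_of_ne_zero hr⟩
    exact one_ne_zero this)
  apply hne
  have hnd : ¬ L.Nodup := by
    intro hn
    have := hn.length_le_card
    rw [hL, Fintype.card_fin] at this
    omega
  rw [prod_zero (fun a => act F (A a)) hsq hac L hnd]
  rfl

/-- over a ring of depth zero a finite minimal resolution has rank zero in positive degrees -/
theorem depth_zero (F : MinRes R M) (s : R) (hs : s ≠ 0) (hms : ∀ x ∈ maximalIdeal R, x * s = 0)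
    (N : ℕ) (hN : F.rank (N + 1) = 0) : F.rank 1 = 0 := by
  induction N with
  | zero => exact hN
  | succ N ih =>
    apply ih
    by_contra hr
    have j : Fin (F.rank (N + 1)) := ⟨0, Nat.pos_of_ne_zero hr⟩
    have h1 : F.d N (s • bv R j) = 0 := by
      rw [map_smul]
      funext c
      rw [Pi.smul_apply, smul_eq_mul, mul_comm]
      exact hms _ (F.minimal N _ c)
    rw [F.exact] at h1
    obtain ⟨y, hy⟩ := h1
    have hy0 : y = 0 := by
      funext l
      exact absurd l.isLt (by have h9 : F.rank (N + 1 + 1) = 0 := hN; omega)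
    rw [hy0, map_zero] at hy
    have := congrFun hy j
    simp [bv] at this
    exact hs this.symm

theorem not_ld [IsNoetherianRing R]
    (h : (maximalIdeal R ^ 2).spanFinrank =
      (maximalIdeal R).spanFinrank * ((maximalIdeal R).spanFinrank + 1) / 2)
    (p e : ℕ) (hp : p.Prime) (he : 1 ≤ e) (hf : ¬ IsField R)
    (s : R) (hs : s ≠ 0) (hms : ∀ x ∈ maximalIdeal R, x * s = 0)
    (hM : IsPushforward p e R M) (F : MinRes R M) (t : ℕ) : ¬ LdLE F t := by
  intro ht
  have h1 : F.rank 1 = 0 :=
    depth_zero F s hs hms (t + (maximalIdeal R).spanFinrank)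
      (rank_zero h F t ht _ (Nat.lt_succ_self _))
  obtain ⟨ψ, hψ⟩ := hM
  have hsm : s ∈ maximalIdeal R := by
    by_contra hsm
    have hu : IsUnit s := by
      by_contra hne
      exact hsm ((mem_maximalIdeal _).2 hne)
    apply hf
    rw [IsLocalRing.isField_iff_maximalIdeal_eq]
    refine (Submodule.eq_bot_iff _).2 fun y hy => ?_
    have := hms y hy
    exact (hu.mul_left_eq_zero).1 this
  have hinj : ∀ v, F.aug v = 0 → v = 0 := by
    intro v hv
    rw [F.exactZero] at hv
    obtain ⟨y, hy⟩ := hv
    have hy0 : y = 0 := by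
      funext l
      exact absurd l.isLt (by have h9 : F.rank (0 + 1) = 0 := h1; omega)
    rw [hy0, map_zero] at hy
    exact hy.symm
  by_cases hr : F.rank 0 = 0
  · obtain ⟨v, hv⟩ := F.surj (ψ.symm 1)
    have hv0 : v = 0 := by
      funext l
      exact absurd l.isLt (by omega)
    rw [hv0, map_zero] at hv
    have := congrArg ψ hv
    rw [map_zero, AddEquiv.apply_symm_apply] at this
    exact zero_ne_one this
  · have j : Fin (F.rank 0) := ⟨0, Nat.pos_of_ne_zero hr⟩
    have h2 : F.aug (s • bv R j) = 0 := by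
      rw [map_smul]
      apply ψ.injective
      rw [hψ, map_zero]
      have h3 : s ^ p ^ e = 0 := by
        have h4 : 2 ≤ p ^ e := by
          calc 2 ≤ p := hp.two_le
            _ = p ^ 1 := (pow_one p).symm
            _ ≤ p ^ e := Nat.pow_le_pow_right hp.pos he
        obtain ⟨k, hk⟩ := Nat.exists_eq_add_of_le h4
        rw [hk, pow_add, pow_two, hms s hsm, zero_mul]
      rw [h3, zero_mul]
    have h3 := congrFun (hinj _ h2) j
    simp [bv] at h3
    exact hs h3

end

end Pool.Agent.H72.LD
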