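import Pool.Agent.H72.LD.Defs

/-!
# Rings without quadratic relations
-/

set_option autoImplicit false

namespace Pool.Agent.H72.LD

open IsLocalRing Finset

theorem card_pairs (n : ℕ) :
    (univ.filter fun p : Fin n × Fin n => p.1 ≤ p.2).card ≤ n * (n + 1) / 2 := by
  have h1 : (univ.filter fun p : Fin n × Fin n => p.1 ≤ p.2).card ≤
      (univ : Finset (Sym2 (Fin n))).card := by
    refine Finset.card_le_card_of_injOn (fun p => s(p.1, p.2)) (fun _ _ => mem_univ _) ?_
    rintro ⟨a, b⟩ hp ⟨c, d⟩ hq h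
    simp only [coe_filter, mem_univ, true_and, Set.mem_setOf_eq] at hp hq
    simp only [Sym2.eq_iff] at h
    rcases h with ⟨h1, h2⟩ | ⟨h1, h2⟩
    · exact Prod.ext h1 h2
    · have : a = b := le_antisymm hp (by rw [h1, h2]; exact hq)
      refine Prod.ext ?_ ?_
      · show a = c; rw [this]; exact h2
      · show b = d; rw [← this]; exact h1
  rw [Finset.card_univ, Sym2.card, Fintype.card_fin, Nat.choose_two_right] at h1
  simpa [Nat.mul_comm] using h1

theorem exists_gens (R : Type) [CommRing R] [IsLocalRing R] [IsNoetherianRing R] {n : ℕ}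
    (hn : (maximalIdeal R).spanFinrank = n)
    (h : (maximalIdeal R ^ 2).spanFinrank = n * (n + 1) / 2) :
    ∃ x : Fin n → R, Ideal.span (Set.range x) = maximalIdeal R ∧
      ∀ c : Fin n → Fin n → R,
        ∑ p ∈ univ.filter (fun p : Fin n × Fin n => p.1 ≤ p.2), c p.1 p.2 * (x p.1 * x p.2) ∈
          maximalIdeal R ^ 3 → ∀ a b, a ≤ b → c a b ∈ maximalIdeal R := by
  classical
  obtain ⟨s, hs, hspan⟩ := Submodule.FG.exists_span_finset_card_eq_spanFinrank
    (p := maximalIdeal R) (IsNoetherian.noetherian _)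
  rw [hn] at hs
  obtain ⟨eq⟩ : Nonempty (Fin n ≃ s) := ⟨(s.equivFinOfCardEq hs).symm⟩
  have hr : Set.range (fun i => (eq i : R)) = (s : Set R) := by
    ext y
    constructor
    · rintro ⟨i, rfl⟩; exact (eq i).2
    · intro hy; exact ⟨eq.symm ⟨y, hy⟩, by simp⟩
  refine ⟨fun i => (eq i : R), by rw [hr]; exact hspan, ?_⟩
  set x : Fin n → R := fun i => (eq i : R) with hx
  have hxs : Ideal.span (Set.range x) = maximalIdeal R := by rw [hx, hr]; exact hspan
  intro c hc a b hab
  by_contra hu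
  have hunit : IsUnit (c a b) := by
    by_contra hne
    exact hu ((mem_maximalIdeal _).2 hne)
  obtain ⟨u, hu'⟩ := hunit
  set P := univ.filter (fun p : Fin n × Fin n => p.1 ≤ p.2) with hP
  have habP : (a, b) ∈ P := by simp [hP, hab]
  set S : Finset R := (P.erase (a, b)).image fun p => x p.1 * x p.2 with hS
  have hle : maximalIdeal R ^ 2 ≤ Ideal.span (S : Set R) ⊔ maximalIdeal R • maximalIdeal R ^ 2 := by
    have h2 : maximalIdeal R ^ 2 = Ideal.span (Set.range fun p : Fin n × Fin n => x p.1 * x p.2) := by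
      rw [pow_two, ← hxs, Ideal.span_mul_span']
      congr 1
      ext y
      simp only [Set.mem_mul, Set.mem_range, Prod.exists]
      constructor
      · rintro ⟨_, ⟨i, rfl⟩, _, ⟨j, rfl⟩, rfl⟩; exact ⟨i, j, rfl⟩
      · rintro ⟨i, j, rfl⟩; exact ⟨_, ⟨i, rfl⟩, _, ⟨j, rfl⟩, rfl⟩
    have key : ∀ p : Fin n × Fin n, p.1 ≤ p.2 → x p.1 * x p.2 ∈
        Ideal.span (S : Set R) ⊔ maximalIdeal R • maximalIdeal R ^ 2 := by
      intro p hp
      by_cases hpab : p = (a, b)
      · subst hpab
        have e1 : ∑ p ∈ P, c p.1 p.2 * (x p.1 * x p.2) =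
            c a b * (x a * x b) + ∑ p ∈ P.erase (a, b), c p.1 p.2 * (x p.1 * x p.2) :=
          (Finset.add_sum_erase P (fun p => c p.1 p.2 * (x p.1 * x p.2)) habP).symm
        have e2 : x a * x b = (u⁻¹ : Rˣ) * (∑ p ∈ P, c p.1 p.2 * (x p.1 * x p.2)) -
            (u⁻¹ : Rˣ) * ∑ p ∈ P.erase (a, b), c p.1 p.2 * (x p.1 * x p.2) := by
          rw [e1, ← hu']
          rw [mul_add, ← mul_assoc, Units.inv_mul, one_mul]
          ring
        show x a * x b ∈ _
        rw [e2]
        refine Ideal.sub_mem _ (Ideal.mul_mem_left _ _ (Ideal.mem_sup_right ?_))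
          (Ideal.mul_mem_left _ _ (Ideal.mem_sup_left ?_))
        · rw [smul_eq_mul, ← pow_succ']
          exact hc
        · refine Ideal.sum_mem _ fun q hq => Ideal.mul_mem_left _ _ (Ideal.subset_span ?_)
          rw [hS]
          exact_mod_cast Finset.mem_image_of_mem _ hq
      · refine Ideal.mem_sup_left (Ideal.subset_span ?_)
        rw [hS]
        have : p ∈ P.erase (a, b) := Finset.mem_erase.2 ⟨hpab, by simp [hP, hp]⟩
        exact_mod_cast Finset.mem_image_of_mem (fun p : Fin n × Fin n => x p.1 * x p.2) this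
    rw [h2]
    refine Ideal.span_le.2 ?_
    rintro _ ⟨p, rfl⟩
    rw [← h2]
    rcases le_total p.1 p.2 with hp | hp
    · exact key p hp
    · have := key (p.2, p.1) hp
      show x p.1 * x p.2 ∈ _
      rw [mul_comm]
      exact this
  have hle2 : maximalIdeal R ^ 2 ≤ Ideal.span (S : Set R) :=
    Submodule.le_of_le_smul_of_le_jacobson_bot (IsNoetherian.noetherian _)
      (by rw [jacobson_eq_maximalIdeal _ bot_ne_top]) hle
  have hge : Ideal.span (S : Set R) ≤ maximalIdeal R ^ 2 := by
    refine Ideal.span_le.2 ?_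
    intro y hy
    rw [hS] at hy
    simp only [coe_image, Set.mem_image] at hy
    obtain ⟨p, -, rfl⟩ := hy
    rw [pow_two]
    refine Ideal.mul_mem_mul ?_ ?_
    · rw [← hxs]; exact Ideal.subset_span ⟨p.1, rfl⟩
    · rw [← hxs]; exact Ideal.subset_span ⟨p.2, rfl⟩
  have heq : Submodule.span R (S : Set R) = maximalIdeal R ^ 2 := le_antisymm hge hle2
  have h5 : (maximalIdeal R ^ 2).spanFinrank ≤ (S : Set R).ncard := by
    rw [← heq]
    exact Submodule.spanFinrank_span_le_ncard_of_finite (Finset.finite_toSet S)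
  rw [Set.ncard_coe_finset, h] at h5
  have h6 : S.card ≤ P.card - 1 := by
    rw [hS]
    refine Finset.card_image_le.trans ?_
    rw [Finset.card_erase_of_mem habP]
  have h7 : P.card ≤ n * (n + 1) / 2 := card_pairs n
  have h8 : 0 < P.card := Finset.card_pos.2 ⟨_, habP⟩
  omega

end Pool.Agent.H72.LD
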