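import Pool.Agent.H72.LD.Main

/-!
# The residue field as a direct summand of a Frobenius pushforward
-/

set_option autoImplicit false

namespace Pool.Agent.H72.LD

open IsLocalRing Finset

variable {R : Type} [CommRing R] [IsLocalRing R] {M : Type} [AddCommGroup M] [Module R M]
  {N : Type} [AddCommGroup N] [Module R N]

theorem lift_range {m : ℕ} {Q S : Type} [AddCommGroup Q] [Module R Q] [AddCommGroup S] [Module R S]
    (d : Q →ₗ[R] S) (φ : (Fin m → R) →ₗ[R] S) (h : ∀ x, φ x ∈ LinearMap.range d) :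
    ∃ ψ : (Fin m → R) →ₗ[R] Q, ∀ x, d (ψ x) = φ x := by
  obtain ⟨ψ, hψ⟩ := Module.projective_lifting_property d.rangeRestrict
    (φ.codRestrict (LinearMap.range d) h) (LinearMap.surjective_rangeRestrict d)
  refine ⟨ψ, fun x => ?_⟩
  have := congrArg Subtype.val (LinearMap.congr_fun hψ x)
  simpa using this

/-- the recursion for chain maps -/
noncomputable def cm (F : MinRes R M) (G : MinRes R N)
    (f0 : {f : (Fin (G.rank 0) → R) →ₗ[R] (Fin (F.rank 0) → R) //
      ∀ y, f (G.d 0 y) ∈ LinearMap.range (F.d 0)}) :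
    (i : ℕ) → {f : (Fin (G.rank i) → R) →ₗ[R] (Fin (F.rank i) → R) //
      ∀ y, f (G.d i y) ∈ LinearMap.range (F.d i)}
  | 0 => f0
  | i + 1 => ⟨Classical.choose (lift_range (F.d i) ((cm F G f0 i).1 ∘ₗ G.d i)
      (fun x => (cm F G f0 i).2 x)), fun y => by
        rw [← F.exact]
        rw [Classical.choose_spec (lift_range (F.d i) ((cm F G f0 i).1 ∘ₗ G.d i)
          (fun x => (cm F G f0 i).2 x)) (G.d (i + 1) y)]
        rw [LinearMap.comp_apply, comp_zero, map_zero]⟩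

theorem chain_map (F : MinRes R M) (G : MinRes R N)
    (f0 : (Fin (G.rank 0) → R) →ₗ[R] (Fin (F.rank 0) → R))
    (h0 : ∀ y, f0 (G.d 0 y) ∈ LinearMap.range (F.d 0)) :
    ∃ f : (i : ℕ) → (Fin (G.rank i) → R) →ₗ[R] (Fin (F.rank i) → R),
      f 0 = f0 ∧ ∀ i y, F.d i (f (i + 1) y) = f i (G.d i y) :=
  ⟨fun i => (cm F G ⟨f0, h0⟩ i).1, rfl, fun i y =>
    Classical.choose_spec (lift_range (F.d i) ((cm F G ⟨f0, h0⟩ i).1 ∘ₗ G.d i)
      (fun x => (cm F G ⟨f0, h0⟩ i).2 x)) y⟩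

/-- the recursion for homotopies -/
noncomputable def hm (G : MinRes R N) (φ : (i : ℕ) → (Fin (G.rank i) → R) →ₗ[R] (Fin (G.rank i) → R))
    (hφ : ∀ i y, G.d i (φ (i + 1) y) = φ i (G.d i y))
    (h0 : {h : (Fin (G.rank 0) → R) →ₗ[R] (Fin (G.rank 1) → R) //
      ∀ y, G.d 0 (h (G.d 0 y)) = φ 0 (G.d 0 y) - G.d 0 y}) :
    (i : ℕ) → {h : (Fin (G.rank i) → R) →ₗ[R] (Fin (G.rank (i + 1)) → R) //
      ∀ y, G.d i (h (G.d i y)) = φ i (G.d i y) - G.d i y}
  | 0 => h0
  | i + 1 =>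
    have key : ∀ x, (φ (i + 1) - LinearMap.id - (hm G φ hφ h0 i).1 ∘ₗ G.d i :
        (Fin (G.rank (i + 1)) → R) →ₗ[R] (Fin (G.rank (i + 1)) → R)) x ∈
        LinearMap.range (G.d (i + 1)) := fun x => by
      rw [← G.exact]
      rw [LinearMap.sub_apply, LinearMap.sub_apply, LinearMap.comp_apply, LinearMap.id_apply,
        map_sub, map_sub, hφ, (hm G φ hφ h0 i).2 x]
      exact sub_self _
    ⟨Classical.choose (lift_range (G.d (i + 1)) _ key), fun y => by
      rw [Classical.choose_spec (lift_range (G.d (i + 1)) _ key) (G.d (i + 1) y)]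
      rw [LinearMap.sub_apply, LinearMap.sub_apply, LinearMap.comp_apply, LinearMap.id_apply,
        comp_zero, map_zero, sub_zero]⟩

theorem homotopy (G : MinRes R N) (φ : (i : ℕ) → (Fin (G.rank i) → R) →ₗ[R] (Fin (G.rank i) → R))
    (hφ : ∀ i y, G.d i (φ (i + 1) y) = φ i (G.d i y))
    (h0 : ∀ x, φ 0 x - x ∈ LinearMap.range (G.d 0)) :
    ∃ h : (i : ℕ) → (Fin (G.rank i) → R) →ₗ[R] (Fin (G.rank (i + 1)) → R),
      ∀ i x, G.d (i + 1) (h (i + 1) x) = φ (i + 1) x - x - h i (G.d i x) := by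
  obtain ⟨k, hk⟩ := lift_range (G.d 0) (φ 0 - LinearMap.id) (fun x => by
    rw [LinearMap.sub_apply, LinearMap.id_apply]; exact h0 x)
  have hk' : ∀ y, G.d 0 (k (G.d 0 y)) = φ 0 (G.d 0 y) - G.d 0 y := fun y => by
    rw [hk]; rfl
  refine ⟨fun i => (hm G φ hφ ⟨k, hk'⟩ i).1, fun i x => ?_⟩
  have key : ∀ x, (φ (i + 1) - LinearMap.id - (hm G φ hφ ⟨k, hk'⟩ i).1 ∘ₗ G.d i :
        (Fin (G.rank (i + 1)) → R) →ₗ[R] (Fin (G.rank (i + 1)) → R)) x ∈
        LinearMap.range (G.d (i + 1)) := fun x => by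
      rw [← G.exact]
      rw [LinearMap.sub_apply, LinearMap.sub_apply, LinearMap.comp_apply, LinearMap.id_apply,
        map_sub, map_sub, hφ, (hm G φ hφ ⟨k, hk'⟩ i).2 x]
      exact sub_self _
  exact Classical.choose_spec (lift_range (G.d (i + 1)) _ key) x

omit [IsLocalRing R] in
theorem map_mem' {m n : ℕ} (f : (Fin m → R) →ₗ[R] (Fin n → R)) (J : Ideal R) (v : Fin m → R)
    (hv : ∀ c, v c ∈ J) (c : Fin n) : f v c ∈ J := by
  rw [apply_eq]
  exact Ideal.sum_mem _ fun j _ => Ideal.mul_mem_right _ _ (hv j)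

/-- linear exactness passes to retracts -/
theorem retract (F : MinRes R M) (G : MinRes R N)
    (f0 : (Fin (G.rank 0) → R) →ₗ[R] (Fin (F.rank 0) → R))
    (g0 : (Fin (F.rank 0) → R) →ₗ[R] (Fin (G.rank 0) → R))
    (hf0 : ∀ y, f0 (G.d 0 y) ∈ LinearMap.range (F.d 0))
    (hg0 : ∀ y, g0 (F.d 0 y) ∈ LinearMap.range (G.d 0))
    (hgf : ∀ x, g0 (f0 x) - x ∈ LinearMap.range (G.d 0)) (i : ℕ) (h : LinExact F i) :
    LinExact G i := by
  obtain ⟨f, hf, hfc⟩ := chain_map F G f0 hf0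
  obtain ⟨g, hg, hgc⟩ := chain_map G F g0 hg0
  obtain ⟨k, hk⟩ := homotopy G (fun i => g i ∘ₗ f i) (fun i y => by
    rw [LinearMap.comp_apply, LinearMap.comp_apply, hgc, hfc]) (fun x => by
    rw [LinearMap.comp_apply, hf, hg]; exact hgf x)
  intro j x hx hdx
  obtain ⟨y, hy, hy2⟩ := h j (f (i + 1) x) (map_mem' _ _ x hx) (by
    intro c
    rw [hfc]
    exact map_mem' _ _ _ hdx c)
  refine ⟨g (i + 2) y - k (i + 1) x, ?_, ?_⟩
  · intro c
    refine Ideal.sub_mem _ (map_mem' _ _ _ hy c) (map_mem' _ _ _ (fun c => ?_) c)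
    exact Ideal.pow_le_pow_right (Nat.sub_le j 1) (hx c)
  · intro c
    have e1 := congrFun (hk i x) c
    rw [map_sub, hgc]
    have e2 : x c - (g (i + 1) (F.d (i + 1) y) - G.d (i + 1) (k (i + 1) x)) c =
        g (i + 1) (f (i + 1) x - F.d (i + 1) y) c - k i (G.d i x) c := by
      rw [map_sub, Pi.sub_apply, Pi.sub_apply, e1, Pi.sub_apply, Pi.sub_apply,
        LinearMap.comp_apply]
      ring
    rw [e2]
    refine Ideal.sub_mem _ (map_mem' _ _ _ hy2 c) ?_
    exact Ideal.pow_le_pow_right (by omega) (map_mem' _ _ _ hdx c)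

/-- if an element outside `m^[q]` is killed by `m^[q]`, then `ld k ≤ ld φ^e R` -/
theorem summand (p e : ℕ) (hM : IsPushforward p e R M) (a : R)
    (ha : ∀ r ∈ maximalIdeal R, r ^ p ^ e * a = 0)
    (hna : a ∉ Ideal.span ((fun r : R => r ^ p ^ e) '' (maximalIdeal R : Set R)))
    (F : MinRes R M) (G : MinRes R (ResidueField R)) (i : ℕ) (h : LinExact F i) :
    LinExact G i := by
  obtain ⟨ψ, hψ⟩ := hM
  obtain ⟨u, hu⟩ := F.surj (ψ.symm a)
  -- a coordinate of `u` is a unit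
  obtain ⟨c, hc⟩ : ∃ c, u c ∉ maximalIdeal R := by
    by_contra hcon
    push Not at hcon
    apply hna
    have h1 := LinearMap.pi_apply_eq_sum_univ F.aug u
    have h2 := congrArg ψ h1
    rw [hu, AddEquiv.apply_symm_apply, map_sum] at h2
    rw [h2]
    refine Ideal.sum_mem _ fun j _ => ?_
    rw [hψ]
    exact Ideal.mul_mem_right _ _ (Ideal.subset_span ⟨u j, hcon j, rfl⟩)
  have hunit : IsUnit (u c) := by
    by_contra hne
    exact hc ((mem_maximalIdeal _).2 hne)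
  obtain ⟨w, hw⟩ := hunit
  obtain ⟨ε, hε⟩ := G.surj 1
  obtain ⟨l, hl⟩ := lift_range (m := G.rank 0) (Algebra.linearMap R (ResidueField R)) G.aug
    (fun x => by
      obtain ⟨r, hr⟩ := residue_surjective (R := R) (G.aug x)
      exact ⟨r, hr⟩)
  have hl' : ∀ x, residue R (l x) = G.aug x := hl
  have hsm : ∀ (r : R) (z : ResidueField R), r • z = residue R r * z := fun r z =>
    Algebra.smul_def r z
  refine retract F G ((LinearMap.toSpanSingleton R _ u) ∘ₗ l)
    ((LinearMap.toSpanSingleton R _ ε) ∘ₗ (((w⁻¹ : Rˣ) : R) •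
      (LinearMap.proj c : (Fin (F.rank 0) → R) →ₗ[R] R))) ?_ ?_ ?_ i h
  · intro y
    rw [← F.exactZero, LinearMap.comp_apply, LinearMap.toSpanSingleton_apply, map_smul, hu]
    apply ψ.injective
    rw [hψ, AddEquiv.apply_symm_apply, map_zero]
    apply ha
    rw [← residue_eq_zero_iff, hl']
    exact (G.exactZero _).2 ⟨y, rfl⟩
  · intro y
    rw [← G.exactZero, LinearMap.comp_apply, LinearMap.toSpanSingleton_apply, map_smul, hε, hsm,
      mul_one, residue_eq_zero_iff, LinearMap.smul_apply, smul_eq_mul]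
    exact Ideal.mul_mem_left _ _ (F.minimal 0 y c)
  · intro x
    rw [← G.exactZero, map_sub, LinearMap.comp_apply, LinearMap.toSpanSingleton_apply, map_smul,
      hε, hsm, mul_one, LinearMap.smul_apply, LinearMap.comp_apply,
      LinearMap.toSpanSingleton_apply, LinearMap.proj_apply, Pi.smul_apply, smul_eq_mul,
      smul_eq_mul, ← hw]
    have : ((w⁻¹ : Rˣ) : R) * (l x * (w : R)) = l x := by
      rw [mul_comm (l x), ← mul_assoc, Units.inv_mul, one_mul]
    rw [this, hl', sub_self]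

theorem exists_killed (p e ℓ : ℕ) (hℓ : maximalIdeal R ^ ℓ = ⊥) (h2 : ℓ < 2 * p ^ e) :
    ∃ a : R, (∀ r ∈ maximalIdeal R, r ^ p ^ e * a = 0) ∧
      a ∉ Ideal.span ((fun r : R => r ^ p ^ e) '' (maximalIdeal R : Set R)) := by
  classical
  have hex : ∃ n, maximalIdeal R ^ n = ⊥ := ⟨ℓ, hℓ⟩
  set n := Nat.find hex with hn
  have hn0 : maximalIdeal R ^ n = ⊥ := Nat.find_spec hex
  have hmin : ∀ k < n, maximalIdeal R ^ k ≠ ⊥ := fun k hk => Nat.find_min hex hk
  have hnle : n ≤ ℓ := Nat.find_min' hex hℓ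
  have hnpos : 0 < n := by
    rcases Nat.eq_zero_or_pos n with h | h
    · rw [h, pow_zero, Ideal.one_eq_top] at hn0
      exact absurd hn0 top_ne_bot
    · exact h
  have hsub : Ideal.span ((fun r : R => r ^ p ^ e) '' (maximalIdeal R : Set R)) ≤
      maximalIdeal R ^ p ^ e := by
    refine Ideal.span_le.2 ?_
    rintro _ ⟨r, hr, rfl⟩
    exact Ideal.pow_mem_pow hr _
  rcases le_or_gt n (p ^ e) with hle | hgt
  · have hz : maximalIdeal R ^ p ^ e = ⊥ :=
      le_bot_iff.1 (hn0 ▸ Ideal.pow_le_pow_right hle)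
    rw [hz] at hsub
    refine ⟨1, fun r hr => ?_, fun h1 => ?_⟩
    · have := Ideal.pow_mem_pow hr (p ^ e)
      rw [hz, Ideal.mem_bot] at this
      rw [this, zero_mul]
    · exact one_ne_zero ((Ideal.mem_bot).1 (hsub h1))
  · have hnot : ¬ (maximalIdeal R ^ (n - p ^ e) ≤
        Ideal.span ((fun r : R => r ^ p ^ e) '' (maximalIdeal R : Set R))) := by
      intro hcon
      have h3 : maximalIdeal R ^ (n - p ^ e) ≤ maximalIdeal R ^ (n - p ^ e + 1) :=
        (hcon.trans hsub).trans (Ideal.pow_le_pow_right (by omega))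
      have h4 : ∀ k, maximalIdeal R ^ (n - p ^ e) ≤ maximalIdeal R ^ (n - p ^ e + k) := by
        intro k
        induction k with
        | zero => exact le_rfl
        | succ k ih =>
          refine ih.trans ?_
          have := Ideal.mul_mono_left (K := maximalIdeal R ^ k) h3
          calc maximalIdeal R ^ (n - p ^ e + k) = maximalIdeal R ^ (n - p ^ e) * maximalIdeal R ^ k :=
                pow_add _ _ _
            _ ≤ maximalIdeal R ^ (n - p ^ e + 1) * maximalIdeal R ^ k := Ideal.mul_mono_left h3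
            _ = maximalIdeal R ^ (n - p ^ e + (k + 1)) := by rw [← pow_add]; congr 1; omega
      have h5 := h4 (p ^ e)
      rw [Nat.sub_add_cancel hgt.le, hn0, le_bot_iff] at h5
      have hq : 0 < p ^ e := by omega
      exact hmin _ (by omega) h5
    obtain ⟨a, ha, hna⟩ := SetLike.not_le_iff_exists.1 hnot
    refine ⟨a, fun r hr => ?_, hna⟩
    have h6 := Ideal.mul_mem_mul (Ideal.pow_mem_pow hr (p ^ e)) ha
    rw [← pow_add, Nat.add_sub_cancel' hgt.le, hn0, Ideal.mem_bot] at h6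
    exact h6

end Pool.Agent.H72.LD
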